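import Pool.Agent.J6H39.ZO.Stm
import Pool.Agent.HopfPinch.AnS1

/-! Project ZO: analyticity on complex lines (`S_A`). -/

set_option autoImplicit false

open MeasureTheory Set Filter Topology Complex

namespace Pool.Agent.J6H39.ZO.An

open Pool.Agent.J6H39.CG

/-- the arguments of zeta lie in the strip `1/4 ≤ Re s ≤ 3/4` -/
lemma re_plus {c : ℂ} (hc : ‖c‖ ≤ 1 / 4) (t : ℝ) :
    1 / 8 ≤ (1 / 2 + (t : ℂ) * I + c).re ∧ (1 / 2 + (t : ℂ) * I + c).re ≤ 7 / 8 ∧
      |(1 / 2 + (t : ℂ) * I + c).im| ≤ 1 + |t| := by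
  have h1 := abs_le.1 ((Complex.abs_re_le_norm c).trans hc)
  have h2 := (Complex.abs_im_le_norm c).trans hc
  have h3 : (1 / 2 + (t : ℂ) * I + c).re = 1 / 2 + c.re := by simp
  have h4 : (1 / 2 + (t : ℂ) * I + c).im = t + c.im := by simp
  rw [h3, h4]
  refine ⟨by linarith [h1.1], by linarith [h1.2], ?_⟩
  have := abs_add_le t c.im
  linarith

lemma re_minus {c : ℂ} (hc : ‖c‖ ≤ 1 / 4) (t : ℝ) :
    1 / 8 ≤ (1 / 2 - (t : ℂ) * I + c).re ∧ (1 / 2 - (t : ℂ) * I + c).re ≤ 7 / 8 ∧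
      |(1 / 2 - (t : ℂ) * I + c).im| ≤ 1 + |t| := by
  have h := re_plus hc (-t)
  have h1 : 1 / 2 + ((-t : ℝ) : ℂ) * I + c = 1 / 2 - (t : ℂ) * I + c := by
    push_cast
    ring
  rw [h1, abs_neg] at h
  exact h

lemma ne_one {s : ℂ} (h : s.re ≤ 7 / 8) : s ≠ 1 := by
  rintro rfl
  rw [Complex.one_re] at h
  norm_num at h

lemma zb {s : ℂ} {t : ℝ} (h : 1 / 8 ≤ s.re ∧ s.re ≤ 7 / 8 ∧ |s.im| ≤ 1 + |t|) :
    ‖riemannZeta s‖ ≤ 16 * (2 + |t|) := by
  refine (zeta_growth h.1 h.2.1).trans ?_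
  have := h.2.2
  linarith

theorem t_A : S_A := by
  intro k p d R hR
  refine ⟨Real.exp (4 * (‖p‖ + R * ‖d‖) + 1), fun T hT => ?_⟩
  have hT0 : 0 < T := (Real.exp_pos _).trans_le hT
  have hL : 4 * (‖p‖ + R * ‖d‖) + 1 ≤ Real.log T := by
    rw [Real.le_log_iff_exp_le hT0]
    exact hT
  have hpd : 0 ≤ ‖p‖ + R * ‖d‖ := by positivity
  have hL0 : 0 < Real.log T := by linarith
  have hsmall : ∀ u ∈ Metric.ball (0 : ℂ) R, ∀ c : ℂ, ‖c‖ ≤ ‖p + u • d‖ →
      ‖c / (Real.log T : ℂ)‖ ≤ 1 / 4 := by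
    intro u hu c hc
    rw [mem_ball_zero_iff] at hu
    have h1 : ‖p + u • d‖ ≤ ‖p‖ + R * ‖d‖ := by
      refine (norm_add_le _ _).trans ?_
      rw [norm_smul]
      have := norm_nonneg d
      nlinarith
    rw [norm_div, Complex.norm_real, Real.norm_eq_abs, abs_of_pos hL0, div_le_iff₀ hL0]
    linarith
  have hc1 : ∀ u ∈ Metric.ball (0 : ℂ) R, ∀ j,
      ‖(p + u • d).1 j / (Real.log T : ℂ)‖ ≤ 1 / 4 := fun u hu j =>
    hsmall u hu _ ((norm_le_pi_norm _ j).trans (norm_fst_le _))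
  have hc2 : ∀ u ∈ Metric.ball (0 : ℂ) R, ∀ j,
      ‖(p + u • d).2 j / (Real.log T : ℂ)‖ ≤ 1 / 4 := fun u hu j =>
    hsmall u hu _ ((norm_le_pi_norm _ j).trans (norm_snd_le _))
  let Φ : ℝ → ℂ → ℂ := fun t u =>
    ∏ j, (riemannZeta (1 / 2 + (t : ℂ) * I + (p + u • d).1 j / (Real.log T : ℂ)) *
      riemannZeta (1 / 2 - (t : ℂ) * I + (p + u • d).2 j / (Real.log T : ℂ)))
  have hMM : (fun u : ℂ => MM k (p + u • d) T) =
      fun u => (∫ t in Ioc 0 T, Φ t u) / ((T * Real.log T ^ (k ^ 2) : ℝ) : ℂ) := by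
    funext u
    unfold MM
    rw [intervalIntegral.integral_of_le hT0.le]
  rw [hMM]
  refine DifferentiableOn.div_const ?_ _
  refine Pool.Agent.HP.differentiableOn_integral (volume.restrict (Ioc 0 T)) Φ
    (Metric.ball 0 R) Metric.isOpen_ball ?_ ?_ (fun t => (16 * (2 + |t|)) ^ (2 * k)) ?_ ?_
  · intro u hu
    have hcont : Continuous fun t : ℝ => Φ t u := by
      refine continuous_finsetProd _ fun j _ => Continuous.mul ?_ ?_
      · refine continuous_iff_continuousAt.2 fun t => ?_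
        have h := (differentiableAt_riemannZeta
          (ne_one (re_plus (hc1 u hu j) t).2.1)).continuousAt
        exact ContinuousAt.comp (f := fun t : ℝ =>
          1 / 2 + (t : ℂ) * I + (p + u • d).1 j / (Real.log T : ℂ)) h (by fun_prop)
      · refine continuous_iff_continuousAt.2 fun t => ?_
        have h := (differentiableAt_riemannZeta
          (ne_one (re_minus (hc2 u hu j) t).2.1)).continuousAt
        exact ContinuousAt.comp (f := fun t : ℝ =>
          1 / 2 - (t : ℂ) * I + (p + u • d).2 j / (Real.log T : ℂ)) h (by fun_prop)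
    exact hcont.aestronglyMeasurable
  · intro t
    refine DifferentiableOn.fun_finsetProd fun j _ => DifferentiableOn.mul ?_ ?_
    · intro u hu
      have h := differentiableAt_riemannZeta (ne_one (re_plus (hc1 u hu j) t).2.1)
      have h1 : DifferentiableAt ℂ
          (fun u : ℂ => 1 / 2 + (t : ℂ) * I + (p + u • d).1 j / (Real.log T : ℂ)) u := by
        have h2 : (fun u : ℂ => 1 / 2 + (t : ℂ) * I + (p + u • d).1 j / (Real.log T : ℂ)) =
            fun u => 1 / 2 + (t : ℂ) * I + (p.1 j + u * d.1 j) / (Real.log T : ℂ) := by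
          funext u
          rfl
        rw [h2]
        fun_prop
      exact (DifferentiableAt.comp u h h1).differentiableWithinAt
    · intro u hu
      have h := differentiableAt_riemannZeta (ne_one (re_minus (hc2 u hu j) t).2.1)
      have h1 : DifferentiableAt ℂ
          (fun u : ℂ => 1 / 2 - (t : ℂ) * I + (p + u • d).2 j / (Real.log T : ℂ)) u := by
        have h2 : (fun u : ℂ => 1 / 2 - (t : ℂ) * I + (p + u • d).2 j / (Real.log T : ℂ)) =
            fun u => 1 / 2 - (t : ℂ) * I + (p.2 j + u * d.2 j) / (Real.log T : ℂ) := by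
          funext u
          rfl
        rw [h2]
        fun_prop
      exact (DifferentiableAt.comp u h h1).differentiableWithinAt
  · have hcont : Continuous fun t : ℝ => (16 * (2 + |t|)) ^ (2 * k) := by fun_prop
    exact (hcont.integrableOn_Icc (a := 0) (b := T)).mono_set Ioc_subset_Icc_self
  · intro t u hu
    show ‖∏ j, _‖ ≤ _
    rw [norm_prod]
    have h1 : ∀ j ∈ (Finset.univ : Finset (Fin k)),
        ‖riemannZeta (1 / 2 + (t : ℂ) * I + (p + u • d).1 j / (Real.log T : ℂ)) *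
        riemannZeta (1 / 2 - (t : ℂ) * I + (p + u • d).2 j / (Real.log T : ℂ))‖ ≤
        (16 * (2 + |t|)) ^ 2 := by
      intro j _
      rw [norm_mul, sq]
      exact mul_le_mul (zb (re_plus (hc1 u hu j) t)) (zb (re_minus (hc2 u hu j) t))
        (norm_nonneg _) (by positivity)
    refine (Finset.prod_le_prod (fun j _ => norm_nonneg _) h1).trans ?_
    rw [Finset.prod_const, Finset.card_univ, Fintype.card_fin, ← pow_mul]

end Pool.Agent.J6H39.ZO.An

namespace Pool.Agent.J6H39.ZO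

/-- **ZO-A** -/
theorem t_A : S_A := An.t_A

end Pool.Agent.J6H39.ZO
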