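import Pool.Agent.J6H39.ZO.Stm

/-! # Project ZO, module C: continuity in the real shifts and the value at zero (`S_C`). -/

set_option autoImplicit false

open MeasureTheory Set Filter Topology Complex

namespace Pool.Agent.J6H39.ZO

open Pool.Agent.J6H39.CG

namespace ModC

theorem cont_zeta {X : Type} [TopologicalSpace X] {s : X → ℂ} (hs : Continuous s) (h1 : ∀ x, (s x).re = 1 / 2) :
    Continuous (fun x => riemannZeta (s x)) := by
  rw [continuous_iff_continuousAt]
  intro x
  have hne : s x ≠ 1 := by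
    intro h
    have := h1 x
    rw [h] at this
    norm_num at this
  exact ContinuousAt.comp (f := s) (differentiableAt_riemannZeta hne).continuousAt hs.continuousAt

theorem re_p (t x L : ℝ) : ((1:ℂ) / 2 + (t : ℂ) * I + (I * (x : ℂ)) / (L : ℂ)).re = 1 / 2 := by
  have h : ((1:ℂ) / 2 + (t : ℂ) * I + (I * (x : ℂ)) / (L : ℂ)) = ((1 / 2 : ℝ) : ℂ) + ((t + x / L : ℝ) : ℂ) * I := by
    push_cast
    ring
  rw [h]
  simp

theorem re_m (t x L : ℝ) : ((1:ℂ) / 2 - (t : ℂ) * I + (-(I * (x : ℂ))) / (L : ℂ)).re = 1 / 2 := by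
  have h : ((1:ℂ) / 2 - (t : ℂ) * I + (-(I * (x : ℂ))) / (L : ℂ)) = ((1 / 2 : ℝ) : ℂ) + ((-t - x / L : ℝ) : ℂ) * I := by
    push_cast
    ring
  rw [h]
  simp

theorem cont (k : ℕ) (T : ℝ) : Continuous (fun x => MM k (rs k x) T) := by
  unfold MM
  refine Continuous.div_const ?_ _
  refine intervalIntegral.continuous_parametric_intervalIntegral_of_continuous' ?_ 0 T
  refine continuous_finsetProd _ fun j _ => Continuous.mul ?_ ?_
  · refine cont_zeta ?_ ?_
    · unfold rs
      fun_prop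
    · intro q
      exact re_p q.2 (q.1.1 j) (Real.log T)
  · refine cont_zeta ?_ ?_
    · unfold rs
      fun_prop
    · intro q
      exact re_m q.2 (q.1.2 j) (Real.log T)

theorem pair (t : ℝ) : riemannZeta (1 / 2 + (t : ℂ) * I) * riemannZeta (1 / 2 - (t : ℂ) * I) = ((‖zh t‖ ^ 2 : ℝ) : ℂ) := by
  have h : (1 / 2 - (t : ℂ) * I) = (starRingEnd ℂ) (1 / 2 + (t : ℂ) * I) := by
    rw [map_add, map_mul, conj_ofReal, conj_I, map_div₀, map_one]
    have : (starRingEnd ℂ) 2 = 2 := by
      exact Complex.conj_ofNat 2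
    rw [this]
    ring
  rw [h, riemannZeta_conj, Complex.mul_conj, Complex.normSq_eq_norm_sq]
  rfl

theorem zero_val (k : ℕ) (T : ℝ) :
    MM k 0 T = (((∫ t in (0:ℝ)..T, ‖zh t‖ ^ (2 * k)) / (T * Real.log T ^ (k ^ 2)) : ℝ) : ℂ) := by
  unfold MM
  rw [Complex.ofReal_div, ← intervalIntegral.integral_ofReal]
  congr 1
  refine intervalIntegral.integral_congr fun t _ => ?_
  simp only [Prod.fst_zero, Prod.snd_zero, Pi.zero_apply, zero_div, add_zero]
  rw [pair t, Finset.prod_const, Finset.card_univ, Fintype.card_fin, pow_mul]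
  push_cast
  rfl

end ModC

theorem t_C : S_C := fun k => ⟨fun T _ => ModC.cont k T, fun T => ModC.zero_val k T⟩

end Pool.Agent.J6H39.ZO
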