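import Pool.Agent.J6H39.ZO.Stm
import Pool.Agent.J6H39.CG.RB

/-!
# ZO-RB: the moments at distance `R / log T` from the critical line
-/

set_option autoImplicit false

open MeasureTheory Set Filter Topology Complex

namespace Pool.Agent.J6H39.ZO

open Pool.Agent.J6H39.CG
open Pool.Agent.J6H39.CG.RBx (pt pt_re pt_im pt_zero zeta_pt_cont JJ JJ_nonneg three_lines conv_facts c1 c2 c1_pos
  integral_om)

/-- **The local bound at distance `R / log T`.** -/
theorem local_boundR (k : ℕ) {R : ℝ} (hR : 0 < R) : ∃ K T₀ : ℝ, 0 ≤ K ∧ Real.exp 7 ≤ T₀ ∧ ∀ T : ℝ, T₀ ≤ T →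
    ∀ x : ℝ, |x| ≤ R / Real.log T → |x| ≤ 1 / 4 ∧
    ∀ τ : ℝ, JJ k x τ ≤ K * (JJ k 0 τ + (1 + |τ| / T) ^ (4 * k)) := by
  obtain ⟨K, hK1, hK⟩ := three_lines k
  refine ⟨Real.exp (16 * k * R) * K, max (Real.exp 7) (Real.exp (4 * R)), by positivity, le_max_left _ _,
    fun T hT x hx => ?_⟩
  have hT7 : Real.exp 7 ≤ T := (le_max_left _ _).trans hT
  have hTR : Real.exp (4 * R) ≤ T := (le_max_right _ _).trans hT
  have hT0 : 0 < T := (Real.exp_pos 7).trans_le hT7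
  have hT1 : 1 ≤ T := (Real.one_le_exp (by norm_num)).trans hT7
  have hL : 7 ≤ Real.log T := (Real.le_log_iff_exp_le hT0).2 hT7
  have hLR : 4 * R ≤ Real.log T := (Real.le_log_iff_exp_le hT0).2 hTR
  have hL0 : 0 < Real.log T := by linarith
  have hx4 : |x| ≤ 1 / 4 := by
    refine hx.trans ?_
    rw [div_le_div_iff₀ hL0 (by norm_num)]
    linarith
  refine ⟨hx4, fun τ => ?_⟩
  set θ := 4 * |x| with hθ
  have hθ0 : 0 ≤ θ := by positivity
  have hθ1 : θ ≤ 1 := by rw [hθ]; linarith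
  set lam : ℝ := T ^ (4 * k) with hlam
  have hlam0 : 0 < lam := by positivity
  set a := JJ k 0 τ with ha
  have ha0 : 0 ≤ a := JJ_nonneg _ _ _
  set b := K * (1 + |τ|) ^ (4 * k) with hb
  have hb0 : 0 ≤ b := by positivity
  have h1 := hK x τ hx4
  have h2 : b ^ θ = lam ^ θ * (b / lam) ^ θ := by
    rw [← Real.mul_rpow hlam0.le (by positivity)]
    congr 1
    field_simp
  have h3 := Real.geom_mean_le_arith_mean2_weighted (w₁ := 1 - θ) (w₂ := θ) (p₁ := a) (p₂ := b / lam)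
    (by linarith) hθ0 ha0 (by positivity) (by ring)
  have h4 : lam ^ θ ≤ Real.exp (16 * k * R) := by
    rw [Real.rpow_def_of_pos hlam0]
    apply Real.exp_le_exp.2
    rw [hlam, Real.log_pow, hθ]
    push_cast
    have h5 : Real.log T * |x| ≤ R := by
      rw [le_div_iff₀ hL0] at hx
      linarith
    have h6 : (0 : ℝ) ≤ k := Nat.cast_nonneg k
    have h7 : (k : ℝ) * (Real.log T * |x|) ≤ k * R := mul_le_mul_of_nonneg_left h5 h6
    nlinarith
  have h5 : b / lam ≤ K * (1 + |τ| / T) ^ (4 * k) := by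
    rw [hb, hlam, mul_div_assoc, ← div_pow]
    gcongr
    rw [add_div]
    have : 1 / T ≤ 1 := by
      rw [div_le_one hT0]; exact hT1
    linarith
  have h6 : 0 ≤ (1 + |τ| / T) ^ (4 * k) := by positivity
  calc JJ k x τ ≤ a ^ (1 - θ) * b ^ θ := h1
    _ = lam ^ θ * (a ^ (1 - θ) * (b / lam) ^ θ) := by rw [h2]; ring
    _ ≤ Real.exp (16 * k * R) * ((1 - θ) * a + θ * (b / lam)) := by
        have : 0 ≤ a ^ (1 - θ) * (b / lam) ^ θ := by positivity
        gcongr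
    _ ≤ Real.exp (16 * k * R) * (K * (a + (1 + |τ| / T) ^ (4 * k))) := by
        gcongr
        have h7 : 0 ≤ b / lam := by positivity
        have h8 : (1 - θ) * a ≤ K * a := by nlinarith
        have h9 : θ * (b / lam) ≤ K * (1 + |τ| / T) ^ (4 * k) := by nlinarith
        linarith
    _ = _ := by ring

/-- **The moments at distance `R / log T` from the critical line.** -/
theorem t_RBR : S_RBR := by
  intro k
  refine ⟨4 * k + 2, fun m hm R hR => ?_⟩
  obtain ⟨C, hC, hg⟩ := Pool.Agent.J6H39.CG.RBx.zeta_growth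
  obtain ⟨K, T₀, hK, hT₀, hloc⟩ := local_boundR k hR
  obtain ⟨K3, hK3, hom⟩ := integral_om hm
  have hc1 := c1_pos m
  have hc2 : 0 ≤ c2 m := integral_nonneg fun u => by positivity
  refine ⟨(c1 m)⁻¹ * (K * (c2 m + K3)), T₀, by positivity, fun T hT x hx => ?_⟩
  have hT7 : Real.exp 7 ≤ T := hT₀.trans hT
  have hT0 : 0 < T := (Real.exp_pos 7).trans_le hT7
  have hT1 : 1 ≤ T := (Real.one_le_exp (by norm_num)).trans hT7
  obtain ⟨hx4, hlx⟩ := hloc T hT x hx
  have hx5 := abs_le.1 hx4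
  have hbd : ∀ y : ℝ, -(3 / 8) ≤ y → y ≤ 3 / 8 → ∀ t : ℝ,
      ‖riemannZeta (pt y t)‖ ^ (2 * k) ≤ C ^ (2 * k) * (1 + |t|) ^ (4 * k) := by
    intro y h1 h2 t
    have h3 := hg (pt y t) (by rw [pt_re]; linarith) (by rw [pt_re]; linarith)
    rw [pt_im] at h3
    calc ‖riemannZeta (pt y t)‖ ^ (2 * k) ≤ (C * (1 + |t|) ^ 2) ^ (2 * k) := by gcongr
      _ = _ := by rw [mul_pow, ← pow_mul]; ring_nf
  have hC0 : 0 ≤ C ^ (2 * k) := by positivity
  obtain ⟨a1, a2, a3, -⟩ := conv_facts (φ := fun t => ‖riemannZeta (pt x t)‖ ^ (2 * k))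
    ((zeta_pt_cont (by linarith)).norm.pow _) (fun t => by positivity) hC0
    (hbd x (by linarith) (by linarith)) hm hT1
  obtain ⟨b1, b2, -, b4⟩ := conv_facts (φ := fun t => ‖riemannZeta (pt 0 t)‖ ^ (2 * k))
    ((zeta_pt_cont (by norm_num)).norm.pow _) (fun t => by positivity) hC0
    (hbd 0 (by norm_num) (by norm_num)) hm hT1
  refine ⟨a1, ?_⟩
  have hNN : ∫ t, ‖riemannZeta (pt 0 t)‖ ^ (2 * k) * om m T t = NN k m T := by
    unfold NN zh
    simp only [pt_zero]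
  obtain ⟨d1, d2⟩ := hom T hT1
  have hon : ∀ t, 0 ≤ om m T t := fun t => Pool.Agent.J6H39.CG.RBx.om_nonneg m hT0 t
  have hmid : ∫ τ, om m T τ * JJ k x τ ≤ ∫ τ, K * (om m T τ * JJ k 0 τ + (1 + |τ| / T) ^ (4 * k) * om m T τ) := by
    refine integral_mono a2 ((b2.add d1).const_mul K) fun τ => ?_
    have h1 := hlx τ
    calc om m T τ * JJ k x τ ≤ om m T τ * (K * (JJ k 0 τ + (1 + |τ| / T) ^ (4 * k))) :=
          mul_le_mul_of_nonneg_left h1 (hon τ)
      _ = _ := by ring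
  have hsum : ∫ τ, K * (om m T τ * JJ k 0 τ + (1 + |τ| / T) ^ (4 * k) * om m T τ) =
      K * ((∫ τ, om m T τ * JJ k 0 τ) + ∫ τ, (1 + |τ| / T) ^ (4 * k) * om m T τ) := by
    have b2' : Integrable (fun τ => om m T τ * JJ k 0 τ) := b2
    rw [integral_const_mul, integral_add b2' d1]
  have hN0 : 0 ≤ NN k m T := by
    rw [← hNN]
    exact integral_nonneg fun t => mul_nonneg (by positivity) (hon t)
  rw [hNN] at b4
  have h5 : c1 m * ∫ t, ‖riemannZeta (pt x t)‖ ^ (2 * k) * om m T t ≤ K * (c2 m * NN k m T + K3 * T) := by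
    refine a3.trans (hmid.trans ?_)
    rw [hsum]
    exact mul_le_mul_of_nonneg_left (add_le_add b4 d2) hK
  have h6 : K * (c2 m * NN k m T + K3 * T) ≤ K * (c2 m + K3) * (NN k m T + T) := by
    have h7 : c2 m * NN k m T + K3 * T ≤ (c2 m + K3) * (NN k m T + T) := by nlinarith
    calc _ ≤ K * ((c2 m + K3) * (NN k m T + T)) := mul_le_mul_of_nonneg_left h7 hK
      _ = _ := by ring
  calc ∫ t, ‖riemannZeta (pt x t)‖ ^ (2 * k) * om m T t =
      (c1 m)⁻¹ * (c1 m * ∫ t, ‖riemannZeta (pt x t)‖ ^ (2 * k) * om m T t) := by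
        rw [inv_mul_cancel_left₀ hc1.ne']
    _ ≤ (c1 m)⁻¹ * (K * (c2 m + K3) * (NN k m T + T)) := by
        exact mul_le_mul_of_nonneg_left (h5.trans h6) (inv_pos.2 hc1).le
    _ = _ := by ring

end Pool.Agent.J6H39.ZO
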