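import Pool.Agent.J6H39.ZO.Stm
import Pool.Agent.J6H39.CG.UB

/-!
# ZO-SEL: good points for an unbounded ratio.
-/

set_option autoImplicit false

open MeasureTheory Set Filter Topology

namespace Pool.Agent.J6H39.ZO

open Pool.Agent.J6H39.CG
open Pool.Agent.J6H39.CG.UBaux (om_nonneg om_even om_le)

/-- dyadic summation at one point -/
theorem sel_dy {φ : ℝ → ℝ} (hc : Continuous φ) (h0 : ∀ t, 0 ≤ φ t) (hev : ∀ t, φ (-t) = φ t)
    {B m : ℕ} (hm : B + 3 ≤ m) {T : ℝ} (hT : 0 < T)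
    (hD : ∀ n : ℕ, ∫ t in (0:ℝ)..(2 ^ n * T), φ t ≤ (2 ^ n) ^ (B + 2) * ∫ t in (0:ℝ)..T, φ t) :
    ∫ t, φ t * om m T t ≤ (2 * (1 + 2 ^ (B + 3))) * ∫ t in (0:ℝ)..T, φ t := by
  set D : ℝ := ∫ t in (0:ℝ)..T, φ t with hDd
  have hD0 : 0 ≤ D := intervalIntegral.integral_nonneg hT.le (fun t _ => h0 t)
  have hcφ : Continuous (fun t => φ t * om m T t) := hc.mul (om_cont m hT)
  have hnn : ∀ t, 0 ≤ φ t * om m T t := fun t => mul_nonneg (h0 t) (om_nonneg m hT t)
  have hii : ∀ a b : ℝ, IntervalIntegrable (fun t => φ t * om m T t) volume a b :=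
    fun a b => hcφ.intervalIntegrable a b
  have hiφ : ∀ a b : ℝ, IntervalIntegrable φ volume a b := fun a b => hc.intervalIntegrable a b
  have hI : ∀ n : ℕ, ∫ t in (0:ℝ)..(2 ^ n * T), φ t * om m T t ≤
      (1 + 2 ^ (B + 2) * ∑ j ∈ Finset.range n, (1 / 2 : ℝ) ^ j) * D := by
    intro n
    induction n with
    | zero =>
      simp only [pow_zero, one_mul, Finset.range_zero, Finset.sum_empty, mul_zero, add_zero]
      refine intervalIntegral.integral_mono_on hT.le (hii _ _) (hiφ _ _) ?_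
      intro t _
      have := om_le_one m hT t
      nlinarith [h0 t]
    | succ n ih =>
      have hsplit := intervalIntegral.integral_add_adjacent_intervals (hii 0 (2 ^ n * T))
        (hii (2 ^ n * T) (2 ^ (n + 1) * T))
      rw [← hsplit, Finset.sum_range_succ]
      have hle : (2 : ℝ) ^ n * T ≤ 2 ^ (n + 1) * T := by
        rw [pow_succ]; have : (0:ℝ) < 2 ^ n := by positivity
        nlinarith
      have h1 : ∫ t in (2 ^ n * T)..(2 ^ (n + 1) * T), φ t * om m T t ≤
          ((2 : ℝ) ^ n)⁻¹ ^ m * ∫ t in (2 ^ n * T)..(2 ^ (n + 1) * T), φ t := by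
        rw [← intervalIntegral.integral_const_mul]
        refine intervalIntegral.integral_mono_on hle (hii _ _) ((hiφ _ _).const_mul _) ?_
        intro t ht
        have := om_le m n hT ht.1
        rw [mul_comm]
        exact mul_le_mul_of_nonneg_right this (h0 t)
      have h2 : ∫ t in (2 ^ n * T)..(2 ^ (n + 1) * T), φ t ≤ ∫ t in (0:ℝ)..(2 ^ (n + 1) * T), φ t := by
        have h3 := intervalIntegral.integral_add_adjacent_intervals (hiφ 0 (2 ^ n * T))
          (hiφ (2 ^ n * T) (2 ^ (n + 1) * T))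
        have h4 : 0 ≤ ∫ t in (0:ℝ)..(2 ^ n * T), φ t :=
          intervalIntegral.integral_nonneg (by positivity) (fun t _ => h0 t)
        linarith
      have h3 := hD (n + 1)
      have h5 : ((2 : ℝ) ^ n)⁻¹ ^ m ≤ ((2 : ℝ) ^ n)⁻¹ ^ (B + 3) := by
        refine pow_le_pow_of_le_one (by positivity) ?_ hm
        exact inv_le_one_of_one_le₀ (one_le_pow₀ (by norm_num))
      have h6 : ∫ t in (2 ^ n * T)..(2 ^ (n + 1) * T), φ t * om m T t ≤
          ((2 : ℝ) ^ n)⁻¹ ^ (B + 3) * ((2 ^ (n + 1)) ^ (B + 2) * D) := by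
        refine h1.trans ?_
        have h7 : 0 ≤ ∫ t in (2 ^ n * T)..(2 ^ (n + 1) * T), φ t :=
          intervalIntegral.integral_nonneg hle (fun t _ => h0 t)
        exact mul_le_mul h5 (h2.trans h3) h7 (by positivity)
      have h8 : ((2 : ℝ) ^ n)⁻¹ ^ (B + 3) * ((2 ^ (n + 1)) ^ (B + 2) * D) =
          2 ^ (B + 2) * (1 / 2 : ℝ) ^ n * D := by
        have hx : (2 : ℝ) ^ n ≠ 0 := by positivity
        have e1 : (1 / 2 : ℝ) ^ n = ((2 : ℝ) ^ n)⁻¹ := by rw [one_div, inv_pow]
        have e2 : ((2 : ℝ) ^ (n + 1)) ^ (B + 2) = (2 ^ n) ^ (B + 2) * 2 ^ (B + 2) := by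
          rw [pow_succ (2 : ℝ) n, mul_pow]
        have e3 : ((2 : ℝ) ^ n)⁻¹ ^ (B + 3) * (2 ^ n) ^ (B + 2) = ((2 : ℝ) ^ n)⁻¹ := by
          rw [show B + 3 = (B + 2) + 1 from rfl, pow_succ, mul_comm (((2 : ℝ) ^ n)⁻¹ ^ (B + 2)), mul_assoc,
            ← mul_pow, inv_mul_cancel₀ hx, one_pow, mul_one]
        rw [e1, e2]
        calc _ = (((2 : ℝ) ^ n)⁻¹ ^ (B + 3) * (2 ^ n) ^ (B + 2)) * (2 ^ (B + 2) * D) := by ring
          _ = _ := by rw [e3]; ring
      rw [h8] at h6
      calc _ ≤ _ := add_le_add ih h6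
        _ = _ := by ring
  have hgeo : ∀ n : ℕ, ∑ j ∈ Finset.range n, (1 / 2 : ℝ) ^ j ≤ 2 := by
    intro n
    have := (summable_geometric_two).sum_le_tsum (Finset.range n) (fun j _ => by positivity)
    rwa [tsum_geometric_two] at this
  have hbound : ∀ n : ℕ, ∫ t in (-(2 ^ n * T))..(2 ^ n * T), φ t * om m T t ≤
      (2 * (1 + 2 ^ (B + 3))) * D := by
    intro n
    have h1 := intervalIntegral.integral_add_adjacent_intervals (hii (-(2 ^ n * T)) 0) (hii 0 (2 ^ n * T))
    have h2 : ∫ t in (-(2 ^ n * T))..0, φ t * om m T t = ∫ t in (0:ℝ)..(2 ^ n * T), φ t * om m T t := by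
      have h3 := intervalIntegral.integral_comp_neg (a := 0) (b := 2 ^ n * T) (fun t => φ t * om m T t)
      simp only [neg_zero] at h3
      rw [← h3]
      refine intervalIntegral.integral_congr ?_
      intro t _
      simp only [hev, om_even]
    have h4 := hI n
    have h6 : (1 + 2 ^ (B + 2) * ∑ j ∈ Finset.range n, (1 / 2 : ℝ) ^ j) * D ≤
        (1 + 2 ^ (B + 2) * 2) * D := by
      have := hgeo n
      gcongr
    have h7 : (1 + 2 ^ (B + 2) * 2) * D = (1 + 2 ^ (B + 3)) * D := by rw [pow_succ (2:ℝ) (B + 2)]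
    rw [← h1, h2]
    linarith
  have htop : Tendsto (fun n : ℕ => (2 : ℝ) ^ n * T) atTop atTop :=
    (tendsto_pow_atTop_atTop_of_one_lt (by norm_num)).atTop_mul_const hT
  have hbot : Tendsto (fun n : ℕ => -((2 : ℝ) ^ n * T)) atTop atBot :=
    tendsto_neg_atTop_atBot.comp htop
  have hint : Integrable (fun t => φ t * om m T t) := by
    refine integrable_of_intervalIntegral_norm_bounded ((2 * (1 + 2 ^ (B + 3))) * D)
      (fun n => ?_) hbot htop ?_
    · exact (hcφ.integrableOn_Icc).mono_set Ioc_subset_Icc_self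
    · refine Eventually.of_forall (fun n => ?_)
      refine le_trans (le_of_eq ?_) (hbound n)
      refine intervalIntegral.integral_congr ?_
      intro t _
      simp only [Real.norm_eq_abs, abs_of_nonneg (hnn t)]
  exact le_of_tendsto' (intervalIntegral_tendsto_integral hint hbot htop) hbound

theorem t_SEL : S_SEL := by
  intro φ hc h0 hev p B m hpB hm ⟨C, hC⟩
  refine ⟨2 * (1 + 2 ^ (B + 3)), by positivity, ?_⟩
  intro hunb Mb
  set Φ : ℝ → ℝ := fun T => ∫ t in (0:ℝ)..T, φ t with hΦ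
  have hiφ : ∀ a b : ℝ, IntervalIntegrable φ volume a b := fun a b => hc.intervalIntegrable a b
  have hmono : ∀ a b : ℝ, a ≤ b → Φ a ≤ Φ b := by
    intro a b hab
    have h3 := intervalIntegral.integral_add_adjacent_intervals (hiφ 0 a) (hiφ a b)
    have h4 : 0 ≤ ∫ t in a..b, φ t := intervalIntegral.integral_nonneg hab (fun t _ => h0 t)
    simp only [hΦ]
    linarith
  have hC0 : 0 ≤ C := by
    have := (h0 0).trans (hC 0)
    simpa using this
  have hgrow : ∀ T : ℝ, 1 ≤ T → Φ T ≤ C * 2 ^ B * T ^ (B + 1) := by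
    intro T hT
    have h1 : Φ T ≤ ∫ t in (0:ℝ)..T, C * (2 * T) ^ B := by
      refine intervalIntegral.integral_mono_on (by linarith) (hiφ _ _) (by simp) ?_
      intro t ht
      refine (hC t).trans ?_
      have : 1 + |t| ≤ 2 * T := by
        rw [abs_of_nonneg ht.1]
        linarith [ht.2]
      gcongr
    rw [intervalIntegral.integral_const, smul_eq_mul, sub_zero] at h1
    refine h1.trans (le_of_eq ?_)
    rw [mul_pow, pow_succ]
    ring
  -- a large point
  set M : ℝ := max Mb 3 with hM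
  have hM3 : 3 ≤ M := le_max_right _ _
  have hMb : Mb ≤ M := le_max_left _ _
  set Q : ℝ → ℝ := fun T => T * Real.log T ^ p with hQ
  have hQpos : ∀ T : ℝ, 2 ≤ T → 0 < Q T := by
    intro T hT
    have := Real.log_pos (by linarith : (1:ℝ) < T)
    simp only [hQ]
    positivity
  have hS : ∃ S : ℝ, M ≤ S ∧ M * Q S ≤ Φ S ∧ 0 < Φ S := by
    by_contra hcon
    push Not at hcon
    refine hunb ⟨max (Φ M / Q 2) M, fun T hT => ?_⟩
    by_cases h1 : T ≤ M
    · have h2 : Q 2 ≤ Q T := by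
        simp only [hQ]
        have h3 : Real.log 2 ≤ Real.log T := Real.log_le_log (by norm_num) hT
        have h4 := Real.log_nonneg (by norm_num : (1:ℝ) ≤ 2)
        gcongr
      have h5 : 0 ≤ Φ M := intervalIntegral.integral_nonneg (by linarith) (fun t _ => h0 t)
      calc Φ T ≤ Φ M := hmono _ _ h1
        _ = Φ M / Q 2 * Q 2 := (div_mul_cancel₀ _ (hQpos 2 le_rfl).ne').symm
        _ ≤ Φ M / Q 2 * Q T := by
            have := hQpos 2 le_rfl
            gcongr
        _ ≤ _ := by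
            have := hQpos T hT
            exact mul_le_mul_of_nonneg_right (le_max_left _ _) this.le
    · push Not at h1
      by_contra hcon2
      push Not at hcon2
      have h2 : M * Q T ≤ Φ T := by
        refine le_trans ?_ hcon2.le
        exact mul_le_mul_of_nonneg_right (le_max_right _ _) (hQpos T hT).le
      have h3 := hcon T h1.le h2
      have h4 : 0 < M * Q T := mul_pos (by linarith) (hQpos T hT)
      linarith
  obtain ⟨S, hS1, hS2, hS3⟩ := hS
  have hSp : 0 < S := by linarith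
  -- the maximum
  set h : ℕ → ℝ := fun j => Φ (2 ^ j * S) / (2 ^ j * S) ^ (B + 2) with hh
  have hh0 : 0 < h 0 := by
    simp only [hh, pow_zero, one_mul]
    positivity
  have hlim : Tendsto h atTop (𝓝 0) := by
    have h1 : Tendsto (fun j : ℕ => C * 2 ^ B / ((2:ℝ) ^ j * S)) atTop (𝓝 0) := by
      refine Tendsto.div_atTop tendsto_const_nhds ?_
      exact (tendsto_pow_atTop_atTop_of_one_lt (by norm_num)).atTop_mul_const hSp
    refine squeeze_zero (fun j => ?_) (fun j => ?_) h1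
    · simp only [hh]
      have : 0 ≤ Φ (2 ^ j * S) := intervalIntegral.integral_nonneg (by positivity) (fun t _ => h0 t)
      positivity
    · simp only [hh]
      have h2 : (1:ℝ) ≤ 2 ^ j := one_le_pow₀ (by norm_num)
      have h3 : 1 ≤ 2 ^ j * S := by nlinarith
      have h4 : 0 < 2 ^ j * S := by linarith
      have h5 := hgrow _ h3
      rw [div_le_div_iff₀ (by positivity) h4]
      calc Φ (2 ^ j * S) * (2 ^ j * S) ≤ C * 2 ^ B * (2 ^ j * S) ^ (B + 1) * (2 ^ j * S) := by gcongr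
        _ = _ := by ring
  obtain ⟨J, hJ⟩ := (hlim.eventually (gt_mem_nhds hh0)).exists_forall_of_atTop
  obtain ⟨i, hi, himax⟩ := Finset.exists_max_image (Finset.range (J + 1)) h ⟨0, by simp⟩
  have hmax : ∀ j, h j ≤ h i := by
    intro j
    by_cases hj : j < J + 1
    · exact himax j (Finset.mem_range.2 hj)
    · have h1 := hJ j (by omega)
      have h2 := himax 0 (by simp)
      linarith
  have hi2 : (1:ℝ) ≤ 2 ^ i := one_le_pow₀ (by norm_num)
  have hT : S ≤ 2 ^ i * S := by nlinarith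
  have hT0 : 0 < 2 ^ i * S := by linarith
  refine ⟨2 ^ i * S, by linarith, ?_, ?_⟩
  · -- the lower bound
    have h1 := hmax 0
    simp only [hh, pow_zero, one_mul] at h1
    rw [div_le_div_iff₀ (by positivity) (by positivity), mul_pow] at h1
    have h2 : (2 ^ i) ^ (B + 2) * Φ S ≤ Φ (2 ^ i * S) := by
      have hSB : 0 < S ^ (B + 2) := by positivity
      have h3 : (2 ^ i) ^ (B + 2) * Φ S * S ^ (B + 2) ≤ Φ (2 ^ i * S) * S ^ (B + 2) := by
        calc (2 ^ i) ^ (B + 2) * Φ S * S ^ (B + 2) = Φ S * ((2 ^ i) ^ (B + 2) * S ^ (B + 2)) := by ring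
          _ ≤ _ := h1
      exact le_of_mul_le_mul_right h3 hSB
    have hlogS : Real.log 2 ≤ Real.log S := Real.log_le_log (by norm_num) (by linarith)
    have hlog2 : 0 ≤ Real.log 2 := Real.log_nonneg (by norm_num)
    have h4 : Real.log (2 ^ i * S) ≤ 2 ^ i * Real.log S := by
      rw [Real.log_mul (by positivity) hSp.ne', Real.log_pow]
      have h5 : (i : ℝ) * Real.log 2 ≤ i * Real.log S := by gcongr
      have h6 : ((i : ℝ) + 1) ≤ 2 ^ i := by
        have : i + 1 ≤ 2 ^ i := Nat.lt_two_pow_self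
        exact_mod_cast this
      have h7 : ((i : ℝ) + 1) * Real.log S ≤ 2 ^ i * Real.log S := by
        have : 0 ≤ Real.log S := by linarith
        gcongr
      linarith
    have h4' : 0 ≤ Real.log (2 ^ i * S) := Real.log_nonneg (by linarith)
    have h8 : Q (2 ^ i * S) ≤ (2 ^ i) ^ (B + 2) * Q S := by
      simp only [hQ]
      have h9 : Real.log (2 ^ i * S) ^ p ≤ (2 ^ i * Real.log S) ^ p := by gcongr
      have h10 : ((2:ℝ) ^ i) ^ (p + 1) ≤ (2 ^ i) ^ (B + 2) := pow_le_pow_right₀ hi2 (by omega)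
      have hls : 0 ≤ Real.log S := by linarith
      calc 2 ^ i * S * Real.log (2 ^ i * S) ^ p ≤ 2 ^ i * S * (2 ^ i * Real.log S) ^ p := by gcongr
        _ = ((2:ℝ) ^ i) ^ (p + 1) * (S * Real.log S ^ p) := by rw [mul_pow, pow_succ]; ring
        _ ≤ _ := by gcongr
    have hQ0 : 0 ≤ Q (2 ^ i * S) := (hQpos _ (by linarith)).le
    calc Mb * Q (2 ^ i * S) ≤ M * Q (2 ^ i * S) := mul_le_mul_of_nonneg_right hMb hQ0
      _ ≤ M * ((2 ^ i) ^ (B + 2) * Q S) := by gcongr
      _ = (2 ^ i) ^ (B + 2) * (M * Q S) := by ring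
      _ ≤ (2 ^ i) ^ (B + 2) * Φ S := by gcongr
      _ ≤ _ := h2
  · refine sel_dy hc h0 hev hm hT0 (fun n => ?_)
    have h1 := hmax (n + i)
    simp only [hh] at h1
    have e1 : (2:ℝ) ^ (n + i) * S = 2 ^ n * (2 ^ i * S) := by rw [pow_add]; ring
    rw [e1, div_le_div_iff₀ (by positivity) (by positivity)] at h1
    rw [mul_pow (2 ^ n)] at h1
    have hpos : 0 < (2 ^ i * S) ^ (B + 2) := by positivity
    have h3 : Φ (2 ^ n * (2 ^ i * S)) * (2 ^ i * S) ^ (B + 2) ≤
        ((2 ^ n) ^ (B + 2) * Φ (2 ^ i * S)) * (2 ^ i * S) ^ (B + 2) := by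
      refine h1.trans (le_of_eq ?_)
      ring
    exact le_of_mul_le_mul_right h3 hpos

end Pool.Agent.J6H39.ZO
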