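import Pool.Agent.J6H39.ZO.Stm

/-! # Project ZO, module U: the uniform bound -/

set_option autoImplicit false

open MeasureTheory Set Filter Topology Complex

namespace Pool.Agent.J6H39.ZO

open Pool.Agent.J6H39.CG

namespace U

/-- a product is at most the sum of the powers -/
theorem prod_le {k : ℕ} (hk : 1 ≤ k) (x y : Fin k → ℝ) (hx : ∀ j, 0 ≤ x j) (hy : ∀ j, 0 ≤ y j) :
    ∏ j, (x j * y j) ≤ ∑ j, (x j ^ (2 * k) + y j ^ (2 * k)) := by
  have : Nonempty (Fin k) := ⟨⟨0, hk⟩⟩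
  obtain ⟨j0, -, hj0⟩ := Finset.exists_max_image Finset.univ (fun j => max (x j) (y j)) Finset.univ_nonempty
  have hz : ∀ j, 0 ≤ max (x j) (y j) := fun j => (hx j).trans (le_max_left _ _)
  have h1 : ∏ j, (x j * y j) ≤ ∏ _j : Fin k, (max (x j0) (y j0)) ^ 2 := by
    refine Finset.prod_le_prod (fun j _ => mul_nonneg (hx j) (hy j)) fun j _ => ?_
    have h2 := hj0 j (Finset.mem_univ j)
    calc x j * y j ≤ max (x j) (y j) * max (x j) (y j) :=
          mul_le_mul (le_max_left _ _) (le_max_right _ _) (hy j) (hz j)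
      _ ≤ max (x j0) (y j0) * max (x j0) (y j0) := mul_le_mul h2 h2 (hz j) (hz j0)
      _ = _ := by ring
  refine h1.trans ?_
  rw [Finset.prod_const, Finset.card_univ, Fintype.card_fin, ← pow_mul]
  have h3 : max (x j0) (y j0) ^ (2 * k) ≤ x j0 ^ (2 * k) + y j0 ^ (2 * k) := by
    rcases le_total (x j0) (y j0) with h | h
    · rw [max_eq_right h]
      have := pow_nonneg (hx j0) (2 * k)
      linarith
    · rw [max_eq_left h]
      have := pow_nonneg (hy j0) (2 * k)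
      linarith
  refine h3.trans ?_
  exact Finset.single_le_sum (f := fun j => x j ^ (2 * k) + y j ^ (2 * k))
    (fun j _ => add_nonneg (pow_nonneg (hx j) _) (pow_nonneg (hy j) _)) (Finset.mem_univ j0)

/-- zeta on a vertical line near the critical line -/
theorem line_cont {x : ℝ} (hx : |x| ≤ 1 / 4) :
    Continuous (fun t : ℝ => riemannZeta (1 / 2 + (x : ℂ) + (t : ℂ) * I)) := by
  refine continuous_iff_continuousAt.2 fun t => ?_
  have hne : (1 / 2 + (x : ℂ) + (t : ℂ) * I) ≠ 1 := by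
    intro h
    have := congrArg Complex.re h
    simp at this
    rw [abs_le] at hx
    linarith [hx.2]
  have h := (differentiableAt_riemannZeta hne).continuousAt
  exact ContinuousAt.comp (f := fun t : ℝ => (1 / 2 + (x : ℂ) + (t : ℂ) * I)) h (by fun_prop)

/-- the bound for one factor -/
theorem one {k m : ℕ} {R K T : ℝ} (hT : 1 ≤ T) (hL : 4 * R + 1 ≤ Real.log T)
    (hb : ∀ x : ℝ, |x| ≤ R / Real.log T →
      Integrable (fun t : ℝ => ‖riemannZeta (1 / 2 + (x : ℂ) + (t : ℂ) * I)‖ ^ (2 * k) * om m T t) ∧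
      ∫ t : ℝ, ‖riemannZeta (1 / 2 + (x : ℂ) + (t : ℂ) * I)‖ ^ (2 * k) * om m T t ≤ K * (NN k m T + T))
    {a : ℂ} (hR : 0 < R) (ha : ‖a‖ ≤ R) :
    Continuous (fun t : ℝ => riemannZeta (1 / 2 + (t : ℂ) * I + a / (Real.log T : ℂ))) ∧
    ∫ t in (0:ℝ)..T, ‖riemannZeta (1 / 2 + (t : ℂ) * I + a / (Real.log T : ℂ))‖ ^ (2 * k) ≤
      2 ^ m * (2 ^ m * (K * (NN k m T + T))) := by
  have hT0 : 0 < T := by linarith
  have hL0 : 0 < Real.log T := by linarith
  obtain ⟨x, hx⟩ : ∃ x : ℝ, x = a.re / Real.log T := ⟨_, rfl⟩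
  obtain ⟨y, hy⟩ : ∃ y : ℝ, y = a.im / Real.log T := ⟨_, rfl⟩
  have hxR : |x| ≤ R / Real.log T := by
    rw [hx, abs_div, abs_of_pos hL0]
    exact div_le_div_of_nonneg_right ((Complex.abs_re_le_norm a).trans ha) hL0.le
  have hyR : |y| ≤ R / Real.log T := by
    rw [hy, abs_div, abs_of_pos hL0]
    exact div_le_div_of_nonneg_right ((Complex.abs_im_le_norm a).trans ha) hL0.le
  have hRL : R / Real.log T ≤ 1 / 4 := by
    rw [div_le_iff₀ hL0]
    linarith
  have hax : a / (Real.log T : ℂ) = (x : ℂ) + (y : ℂ) * I := by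
    have hLc : (Real.log T : ℂ) ≠ 0 := by exact_mod_cast hL0.ne'
    rw [hx, hy]
    push_cast
    rw [div_eq_iff hLc, add_mul]
    conv_lhs => rw [← Complex.re_add_im a]
    field_simp
  have e1 : ∀ t : ℝ, riemannZeta (1 / 2 + (t : ℂ) * I + a / (Real.log T : ℂ)) =
      riemannZeta (1 / 2 + (x : ℂ) + ((t - (-y) : ℝ) : ℂ) * I) := by
    intro t
    rw [hax]
    congr 1
    push_cast
    ring
  have hc := line_cont (hxR.trans hRL)
  obtain ⟨hi, hle⟩ := hb x hxR
  obtain ⟨hs1, hs2⟩ := shift_int (m := m) hT (φ := fun t : ℝ => ‖riemannZeta (1 / 2 + (x : ℂ) + (t : ℂ) * I)‖ ^ (2 * k))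
    (fun t => by positivity) (hc.norm.pow _) hi (-y)
  have hcs : Continuous (fun t : ℝ => riemannZeta (1 / 2 + (x : ℂ) + ((t - (-y) : ℝ) : ℂ) * I)) :=
    hc.comp (continuous_id.sub continuous_const)
  simp_rw [e1]
  refine ⟨hcs, ?_⟩
  have h2 : (1 + |-y|) ^ m ≤ 2 ^ m := by
    rw [abs_neg]
    have := hyR.trans hRL
    have := abs_nonneg y
    gcongr
    linarith
  have h3 : 0 ≤ ∫ t : ℝ, ‖riemannZeta (1 / 2 + (x : ℂ) + (t : ℂ) * I)‖ ^ (2 * k) * om m T t :=
    integral_nonneg fun t => mul_nonneg (by positivity) (om_pos m hT0 t).le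
  have h4 : ∫ t : ℝ, ‖riemannZeta (1 / 2 + (x : ℂ) + ((t - (-y) : ℝ) : ℂ) * I)‖ ^ (2 * k) * om m T t ≤
      2 ^ m * (K * (NN k m T + T)) :=
    hs2.trans (mul_le_mul h2 hle h3 (by positivity))
  rw [intervalIntegral.integral_of_le hT0.le]
  have h5 : ∫ t in Ioc 0 T, ‖riemannZeta (1 / 2 + (x : ℂ) + ((t - (-y) : ℝ) : ℂ) * I)‖ ^ (2 * k) ≤
      ∫ t in Ioc 0 T, 2 ^ m * (‖riemannZeta (1 / 2 + (x : ℂ) + ((t - (-y) : ℝ) : ℂ) * I)‖ ^ (2 * k) * om m T t) := by
    refine setIntegral_mono_on ?_ (hs1.integrableOn.const_mul _) measurableSet_Ioc ?_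
    · exact ((hcs.norm.pow _).integrableOn_Icc).mono_set Ioc_subset_Icc_self
    · intro t ht
      have h6 : ((2 : ℝ) ^ m)⁻¹ ≤ om m T t := by
        unfold om
        have h7 : 1 + |t| / T ≤ 2 := by
          rw [abs_of_pos ht.1]
          have : t / T ≤ 1 := by rw [div_le_one hT0]; exact ht.2
          linarith
        have h8 := om_base hT0 t
        gcongr
      have h9 : 1 ≤ 2 ^ m * om m T t := by
        calc (1 : ℝ) = 2 ^ m * ((2 : ℝ) ^ m)⁻¹ := by field_simp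
          _ ≤ _ := by gcongr
      have h10 : 0 ≤ ‖riemannZeta (1 / 2 + (x : ℂ) + ((t - (-y) : ℝ) : ℂ) * I)‖ ^ (2 * k) := by positivity
      nlinarith
  refine h5.trans ?_
  rw [integral_const_mul]
  refine mul_le_mul_of_nonneg_left ?_ (by positivity)
  refine le_trans ?_ h4
  exact setIntegral_le_integral hs1 (Eventually.of_forall fun t => mul_nonneg (by positivity) (om_pos m hT0 t).le)

end U

open U

theorem t_U (hRB : S_RBR) : S_U := by
  intro k hk
  obtain ⟨m₀, hm₀⟩ := hRB k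
  refine ⟨m₀, fun m hm R hR => ?_⟩
  obtain ⟨K, T₀, hK, hb⟩ := hm₀ m hm R hR
  refine ⟨2 * k * (2 ^ m * (2 ^ m * K)), max T₀ (max 1 (Real.exp (4 * R + 1))), by positivity, fun T hT p hp => ?_⟩
  have hT1 : 1 ≤ T := (le_max_left _ _).trans ((le_max_right _ _).trans hT)
  have hT2 : T₀ ≤ T := (le_max_left _ _).trans hT
  have hT0 : 0 < T := by linarith
  have hL : 4 * R + 1 ≤ Real.log T := by
    rw [Real.le_log_iff_exp_le hT0]
    exact (le_max_right _ _).trans ((le_max_right _ _).trans hT)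
  have hL0 : 0 < Real.log T := by linarith
  have hp1 : ∀ j, ‖p.1 j‖ ≤ R := fun j => (norm_le_pi_norm p.1 j).trans ((norm_fst_le p).trans hp)
  have hp2 : ∀ j, ‖p.2 j‖ ≤ R := fun j => (norm_le_pi_norm p.2 j).trans ((norm_snd_le p).trans hp)
  have hp2' : ∀ j, ‖(starRingEnd ℂ) (p.2 j)‖ ≤ R := fun j => by rw [RCLike.norm_conj]; exact hp2 j
  have hconj : ∀ (j : Fin k) (t : ℝ), ‖riemannZeta (1 / 2 - (t : ℂ) * I + p.2 j / (Real.log T : ℂ))‖ =
      ‖riemannZeta (1 / 2 + (t : ℂ) * I + (starRingEnd ℂ) (p.2 j) / (Real.log T : ℂ))‖ := by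
    intro j t
    have h1 : (1 / 2 + (t : ℂ) * I + (starRingEnd ℂ) (p.2 j) / (Real.log T : ℂ)) =
        (starRingEnd ℂ) (1 / 2 - (t : ℂ) * I + p.2 j / (Real.log T : ℂ)) := by
      simp only [map_add, map_sub, map_mul, map_div₀, Complex.conj_ofReal, Complex.conj_I, map_one, map_ofNat]
      ring
    rw [h1, riemannZeta_conj, RCLike.norm_conj]
  have h1 : ∀ j, _ := fun j => one (k := k) (m := m) (K := K) hT1 hL (fun x hx => hb T hT2 x hx) hR (hp1 j)
  have h2 : ∀ j, _ := fun j => one (k := k) (m := m) (K := K) hT1 hL (fun x hx => hb T hT2 x hx) hR (hp2' j)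
  have hNN : 0 ≤ NN k m T := integral_nonneg fun t => mul_nonneg (by positivity) (om_pos m hT0 t).le
  unfold MM
  rw [norm_div, Complex.norm_real, Real.norm_eq_abs, abs_of_pos (by positivity), mul_div_assoc']
  refine div_le_div_of_nonneg_right ?_ (by positivity)
  have hle : ‖∫ t in (0:ℝ)..T, ∏ j, (riemannZeta (1 / 2 + (t : ℂ) * I + p.1 j / (Real.log T : ℂ)) *
      riemannZeta (1 / 2 - (t : ℂ) * I + p.2 j / (Real.log T : ℂ)))‖ ≤
      ∫ t in (0:ℝ)..T, ∑ j, (‖riemannZeta (1 / 2 + (t : ℂ) * I + p.1 j / (Real.log T : ℂ))‖ ^ (2 * k) +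
        ‖riemannZeta (1 / 2 + (t : ℂ) * I + (starRingEnd ℂ) (p.2 j) / (Real.log T : ℂ))‖ ^ (2 * k)) := by
    refine intervalIntegral.norm_integral_le_of_norm_le hT0.le ?_ ?_
    · refine ae_of_all _ fun t _ => ?_
      rw [norm_prod]
      simp_rw [norm_mul, hconj]
      exact prod_le hk _ _ (fun j => norm_nonneg _) (fun j => norm_nonneg _)
    · refine Continuous.intervalIntegrable ?_ _ _
      refine continuous_finsetSum _ fun j _ => ?_
      exact ((h1 j).1.norm.pow _).add ((h2 j).1.norm.pow _)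
  refine hle.trans ?_
  rw [intervalIntegral.integral_finsetSum]
  · have h3 : ∀ j ∈ (Finset.univ : Finset (Fin k)), ∫ t in (0:ℝ)..T,
        (‖riemannZeta (1 / 2 + (t : ℂ) * I + p.1 j / (Real.log T : ℂ))‖ ^ (2 * k) +
        ‖riemannZeta (1 / 2 + (t : ℂ) * I + (starRingEnd ℂ) (p.2 j) / (Real.log T : ℂ))‖ ^ (2 * k)) ≤
        2 * (2 ^ m * (2 ^ m * (K * (NN k m T + T)))) := by
      intro j _
      have i1 : IntervalIntegrable (fun t : ℝ => ‖riemannZeta (1 / 2 + (t : ℂ) * I +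
          p.1 j / (Real.log T : ℂ))‖ ^ (2 * k)) volume 0 T := ((h1 j).1.norm.pow _).intervalIntegrable _ _
      have i2 : IntervalIntegrable (fun t : ℝ => ‖riemannZeta (1 / 2 + (t : ℂ) * I +
          (starRingEnd ℂ) (p.2 j) / (Real.log T : ℂ))‖ ^ (2 * k)) volume 0 T :=
        ((h2 j).1.norm.pow _).intervalIntegrable _ _
      rw [intervalIntegral.integral_add i1 i2]
      have a1 := (h1 j).2
      have a2 := (h2 j).2
      linarith
    refine (Finset.sum_le_sum h3).trans (le_of_eq ?_)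
    rw [Finset.sum_const, Finset.card_univ, Fintype.card_fin, nsmul_eq_mul]
    ring
  · intro j _
    exact (((h1 j).1.norm.pow _).add ((h2 j).1.norm.pow _)).intervalIntegrable _ _

end Pool.Agent.J6H39.ZO
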