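import Pool.Agent.J6H39.ZO.Mo
import Pool.Agent.J6H39.ZO.RBR
import Pool.Agent.J6H39.ZO.U
import Pool.Agent.J6H39.ZO.A
import Pool.Agent.J6H39.ZO.C
import Pool.Agent.J6H39.ZO.SEL
import Pool.Agent.J6H39.CG.UB

/-! Project ZO: the final statements with separate shift vectors. -/

set_option autoImplicit false

open MeasureTheory Set Filter Topology Complex

namespace Pool.Agent.J6H39.ZO

open Pool.Agent.J6H39.CG

theorem hU : S_U := t_U t_RBR

end Pool.Agent.J6H39.ZO
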