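import Pool.Agent.J6H39.ZO.Stm

set_option autoImplicit false

open MeasureTheory Set Filter Topology Complex

namespace Pool.Agent.J6H39.ZO.LNn

/-- real shift vectors -/
abbrev E (k : ℕ) : Type := (Fin k → ℝ) × (Fin k → ℝ)

/-- lines in sets of positive measure -/
theorem t_LN : S_LN := by
  intro k C hC hpos q
  by_contra hcon
  push Not at hcon
  have hHaar : (volume : Measure ((Fin k → ℝ) × (Fin k → ℝ))).IsAddHaarMeasure := by
    rw [Measure.volume_eq_prod]
    exact Measure.prod.instIsAddHaarMeasure _ _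
  let S : Set (ℝ × E k) := {z | z.1 ∈ Icc (1 : ℝ) 2 ∧ q + z.1 • z.2 ∈ C}
  have hcontS : Measurable fun z : ℝ × E k => q + z.1 • z.2 := by
    have : Continuous fun z : ℝ × E k => q + z.1 • z.2 := by fun_prop
    exact this.measurable
  have hS : MeasurableSet S :=
    (measurable_fst measurableSet_Icc).inter (hcontS hC)
  have hS' : MeasurableSet (Prod.swap ⁻¹' S : Set (E k × ℝ)) := measurable_swap hS
  have h1 : (volume.prod volume : Measure (E k × ℝ)) (Prod.swap ⁻¹' S) = 0 := by
    rw [Measure.measure_prod_null hS']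
    refine Eventually.of_forall fun x => ?_
    have h2 : {u : ℝ | u ∈ Icc (1:ℝ) 2 ∧ q + u • ((q + x) - q) ∈ C}.Finite := by
      exact hcon (q + x)
    rw [add_sub_cancel_left] at h2
    exact h2.measure_zero _
  have h3 : (volume.prod volume : Measure (ℝ × E k)) S = 0 := by
    rw [← h1]
    exact ((Measure.measurePreserving_swap (μ := (volume : Measure (E k)))
      (ν := (volume : Measure ℝ))).measure_preimage hS.nullMeasurableSet).symm
  rw [Measure.measure_prod_null hS] at h3
  have h4 : volume (Icc (1 : ℝ) 2) = 0 := by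
    refine measure_mono_null ?_ h3
    intro u hu hu0
    have h5 : volume (Prod.mk u ⁻¹' S) = 0 := hu0
    have hu1 : u ≠ 0 := by
      rintro rfl
      have := hu.1
      norm_num at this
    have h6 : (Prod.mk u ⁻¹' S : Set (E k)) = (fun x => u • x) ⁻¹' ((fun x => q + x) ⁻¹' C) := by
      ext x
      simp only [S, mem_preimage, mem_ofPred_eq]
      exact ⟨fun h => h.2, fun h => ⟨hu, h⟩⟩
    rw [h6, Measure.addHaar_preimage_smul _ hu1, measure_preimage_add] at h5
    rw [mul_eq_zero] at h5
    rcases h5 with h5 | h5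
    · rw [ENNReal.ofReal_eq_zero] at h5
      have : 0 < |(u ^ Module.finrank ℝ (E k))⁻¹| := by positivity
      linarith
    · exact hpos h5
  rw [Real.volume_Icc] at h4
  norm_num at h4

end Pool.Agent.J6H39.ZO.LNn

namespace Pool.Agent.J6H39.ZO

/-- **ZO-LN** -/
theorem t_LN : S_LN := LNn.t_LN

end Pool.Agent.J6H39.ZO
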