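import Pool.Agent.J6H39.ZO.Stm
import Pool.Agent.J6H39.CG.Fin4

/-! Project ZO: the a priori bound and convergence on complex lines. -/

set_option autoImplicit false

open MeasureTheory Set Filter Topology Complex

namespace Pool.Agent.J6H39.ZO

open Pool.Agent.J6H39.CG

/-- identity theorem: an entire function vanishing on an infinite bounded set is zero -/
theorem zero_of_infinite {Φ : ℂ → ℂ} (hΦ : Differentiable ℂ Φ) {E : Set ℂ} (hE : E.Infinite)
    (hb : Bornology.IsBounded E) (h : ∀ u ∈ E, Φ u = 0) (u : ℂ) : Φ u = 0 := by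
  obtain ⟨r, hr⟩ := hb.subset_closedBall (0 : ℂ)
  obtain ⟨z₀, -, hz₀⟩ := hE.exists_accPt_of_subset_isCompact (isCompact_closedBall (0 : ℂ) r) hr
  have h1 : ∃ᶠ z in 𝓝[≠] z₀, Φ z = 0 := by
    rw [accPt_iff_frequently_nhdsNE] at hz₀
    exact hz₀.mono fun z hz => h z hz
  have h2 : AnalyticOnNhd ℂ Φ univ := fun z _ => hΦ.analyticAt z
  exact h2.eqOn_zero_of_preconnected_of_frequently_eq_zero isPreconnected_univ (mem_univ z₀) h1 (mem_univ u)

variable {k : ℕ}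

theorem qpos {T : ℝ} (hT : 1 < T) (p : ℕ) : 0 < T * Real.log T ^ p := by
  have := Real.log_pos hT
  positivity

theorem le_q {T : ℝ} (hT : 3 ≤ T) (p : ℕ) : T ≤ T * Real.log T ^ p := by
  have h1 : 1 ≤ Real.log T := by
    rw [Real.le_log_iff_exp_le (by linarith)]
    exact Real.exp_one_lt_three.le.trans hT
  exact le_mul_of_one_le_right (by linarith) (one_le_pow₀ h1)

/-- **the a priori bound**: boundedness at infinitely many bounded points of a complex line through the origin -/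
theorem ub_of_line (hU : S_U) (hA : S_A) (hC : S_C) (hV : S_VIT) (hS : S_SEL) (hk : 1 ≤ k) (d : Sh k)
    {E : Set ℂ} (hE : E.Infinite) (hb : Bornology.IsBounded E)
    (h : ∀ u ∈ E, ∃ B T₀ : ℝ, ∀ T : ℝ, T₀ ≤ T → ‖MM k (u • d) T‖ ≤ B) :
    ∃ C₀ : ℝ, ∀ T : ℝ, 2 ≤ T → ∫ t in (0:ℝ)..T, ‖zh t‖ ^ (2 * k) ≤ C₀ * (T * Real.log T ^ (k ^ 2)) := by
  by_contra hne
  obtain ⟨m₀, hU⟩ := hU k hk
  set B : ℕ := max (2 * k) (k ^ 2) with hB
  set m : ℕ := max m₀ (B + 3) with hm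
  have hgr : ∃ C : ℝ, ∀ t, ‖zh t‖ ^ (2 * k) ≤ C * (1 + |t|) ^ B := by
    obtain ⟨C, hC⟩ := phi_growth k
    have hC0 : 0 ≤ C := by
      have := (show (0 : ℝ) ≤ ‖zh 0‖ ^ (2 * k) by positivity).trans (hC 0)
      simpa using this
    refine ⟨C, fun t => (hC t).trans ?_⟩
    have h1 : (1 + |t|) ^ (2 * k) ≤ (1 + |t|) ^ B :=
      pow_le_pow_right₀ (by linarith [abs_nonneg t]) (le_max_left _ _)
    gcongr
  obtain ⟨K', hK', hsel⟩ := hS (fun t => ‖zh t‖ ^ (2 * k)) (phi_cont k) (fun t => by positivity)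
    (fun t => by simp only [zh_conj]) (k ^ 2) B m ((le_max_right _ _).trans (Nat.le_succ _)) (le_max_right _ _) hgr
  have hsel := hsel hne
  choose T hT1 hT2 hT3 using fun n : ℕ => hsel (n + 3)
  set Φ : ℝ → ℝ := fun T => ∫ t in (0:ℝ)..T, ‖zh t‖ ^ (2 * k) with hΦdef
  set Q : ℝ → ℝ := fun T => T * Real.log T ^ (k ^ 2) with hQdef
  have hT3' : ∀ n, 3 ≤ T n := fun n => le_trans (by linarith [(Nat.cast_nonneg n : (0 : ℝ) ≤ n)]) (hT1 n)
  have hQ : ∀ n, 0 < Q (T n) := fun n => qpos (by linarith [hT3' n]) _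
  have hTQ : ∀ n, T n ≤ Q (T n) := fun n => le_q (hT3' n) _
  have hΦ1 : ∀ n : ℕ, ((n : ℝ) + 3) * Q (T n) ≤ Φ (T n) := fun n => hT2 n
  have hΦ0 : ∀ n, 0 < Φ (T n) := fun n => lt_of_lt_of_le (mul_pos (by positivity) (hQ n)) (hΦ1 n)
  have hΦQ : ∀ n, Q (T n) ≤ Φ (T n) := fun n => by
    refine le_trans ?_ (hΦ1 n)
    have := hQ n
    nlinarith [(Nat.cast_nonneg n : (0 : ℝ) ≤ n)]
  set r : ℕ → ℝ := fun n => Φ (T n) / Q (T n) with hr
  have hr0 : ∀ n, 0 < r n := fun n => div_pos (hΦ0 n) (hQ n)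
  have hrn : ∀ n : ℕ, (n : ℝ) + 3 ≤ r n := fun n => by
    rw [hr]
    simp only
    rw [le_div_iff₀ (hQ n)]
    exact hΦ1 n
  have hTtop : Tendsto T atTop atTop := by
    refine tendsto_atTop_mono hT1 ?_
    exact tendsto_atTop_add_const_right _ _ tendsto_natCast_atTop_atTop
  have hrtop : Tendsto r atTop atTop := by
    refine tendsto_atTop_mono hrn ?_
    exact tendsto_atTop_add_const_right _ _ tendsto_natCast_atTop_atTop
  set F : ℕ → ℂ → ℂ := fun n u => MM k (u • d) (T n) / (r n : ℂ) with hF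
  have hloc : ∀ R : ℝ, 0 < R → ∃ K : ℝ, ∀ᶠ i in (atTop : Filter ℕ), DifferentiableOn ℂ (F i) (Metric.ball 0 R) ∧
      ∀ u ∈ Metric.ball (0 : ℂ) R, ‖F i u‖ ≤ K := by
    intro R hR
    obtain ⟨K, T₁, hK, hbd⟩ := hU m (le_max_left _ _) (R * ‖d‖ + 1) (by positivity)
    obtain ⟨T₂, hdiff⟩ := hA k 0 d R hR
    refine ⟨K * (K' + 1), ?_⟩
    filter_upwards [hTtop.eventually_ge_atTop T₁, hTtop.eventually_ge_atTop T₂] with n h1 h2
    constructor
    · have := hdiff (T n) h2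
      simp only [zero_add] at this
      exact this.div_const _
    · intro u hu
      rw [mem_ball_zero_iff] at hu
      have h3 : ‖u • d‖ ≤ R * ‖d‖ + 1 := by
        rw [norm_smul]
        have : ‖u‖ * ‖d‖ ≤ R * ‖d‖ := by gcongr
        linarith
      have h4 := hbd (T n) h1 (u • d) h3
      rw [hF]
      simp only
      rw [norm_div, Complex.norm_real, Real.norm_of_nonneg (hr0 n).le, div_le_iff₀ (hr0 n)]
      refine h4.trans ?_
      have h5 : NN k m (T n) ≤ K' * Φ (T n) := hT3 n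
      have h6 : (NN k m (T n) + T n) / Q (T n) ≤ (K' + 1) * r n := by
        rw [hr]
        simp only
        rw [div_le_iff₀ (hQ n)]
        have h7 : (K' + 1) * (Φ (T n) / Q (T n)) * Q (T n) = (K' + 1) * Φ (T n) := by
          field_simp [(hQ n).ne']
        rw [h7]
        have := hTQ n
        have := hΦQ n
        linarith
      calc K * ((NN k m (T n) + T n) / (T n * Real.log (T n) ^ (k ^ 2))) ≤ K * ((K' + 1) * r n) :=
            mul_le_mul_of_nonneg_left h6 hK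
        _ = _ := by ring
  have hcv : ∀ u ∈ E, Tendsto (fun i => F i u) atTop (𝓝 0) := by
    intro u hu
    obtain ⟨Bu, T₀, hBu⟩ := h u hu
    rw [tendsto_zero_iff_norm_tendsto_zero]
    have h2 : Tendsto (fun n => max Bu 0 / r n) atTop (𝓝 0) := tendsto_const_nhds.div_atTop hrtop
    refine squeeze_zero' (Eventually.of_forall fun _ => norm_nonneg _) ?_ h2
    filter_upwards [hTtop.eventually_ge_atTop T₀] with n hn
    rw [hF]
    simp only
    rw [norm_div, Complex.norm_real, Real.norm_of_nonneg (hr0 n).le]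
    have h3 := hBu (T n) hn
    have h4 := hr0 n
    gcongr
    exact h3.trans (le_max_left _ _)
  obtain ⟨G, hG, hlim⟩ := hV ℕ atTop inferInstance F hloc E hE hb (fun u hu => ⟨0, hcv u hu⟩)
  have hz : ∀ u ∈ E, G u = 0 := fun u hu => tendsto_nhds_unique (hlim u) (hcv u hu)
  have h0 := zero_of_infinite hG hE hb hz 0
  have h1 : Tendsto (fun n => F n 0) atTop (𝓝 1) := by
    have : (fun n => F n 0) = fun _ => (1 : ℂ) := by
      funext n
      rw [hF]
      simp only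
      rw [zero_smul, (hC k).2 (T n)]
      have h5 : ((((∫ t in (0:ℝ)..(T n), ‖zh t‖ ^ (2 * k)) / (T n * Real.log (T n) ^ (k ^ 2)) : ℝ)) : ℂ) = (r n : ℂ) := rfl
      rw [h5, div_self]
      exact_mod_cast (hr0 n).ne'
    rw [this]
    exact tendsto_const_nhds
  have := tendsto_nhds_unique (hlim 0) h1
  rw [h0] at this
  exact zero_ne_one this

/-- local boundedness under the upper bound -/
theorem bdd_all (hU : S_U) (hUB : S_UB) (hk : 1 ≤ k)
    (hub : ∃ C₀ : ℝ, ∀ T : ℝ, 2 ≤ T → ∫ t in (0:ℝ)..T, ‖zh t‖ ^ (2 * k) ≤ C₀ * (T * Real.log T ^ (k ^ 2)))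
    (R : ℝ) (hR : 0 < R) : ∃ K T₀ : ℝ, 0 ≤ K ∧ ∀ T : ℝ, T₀ ≤ T → ∀ p : Sh k, ‖p‖ ≤ R → ‖MM k p T‖ ≤ K := by
  obtain ⟨m₀, hU⟩ := hU k hk
  obtain ⟨C₀, hC₀⟩ := hub
  obtain ⟨K, T₁, hK, h1⟩ := hU (max m₀ 2) (le_max_left _ _) R hR
  obtain ⟨K₂, hK₂, h2⟩ := hUB (fun t => ‖zh t‖ ^ (2 * k)) (phi_cont k) (fun t => by positivity)
    (fun t => by simp only [zh_conj]) (k ^ 2) (max m₀ 2) (le_max_right _ _) C₀ hC₀
  refine ⟨K * (K₂ + 1), max T₁ 3, by positivity, fun T hT p hp => ?_⟩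
  have hT3 : 3 ≤ T := (le_max_right _ _).trans hT
  refine (h1 T ((le_max_left _ _).trans hT) p hp).trans ?_
  refine mul_le_mul_of_nonneg_left ?_ hK
  rw [div_le_iff₀ (qpos (by linarith) _)]
  have h3 := (h2 T hT3).2
  have h4 := le_q hT3 (k ^ 2)
  have h5 : NN k (max m₀ 2) T = ∫ t, ‖zh t‖ ^ (2 * k) * om (max m₀ 2) T t := rfl
  rw [h5]
  linarith

/-- convergence on a complex line along a filter -/
theorem conv_line (hU : S_U) (hA : S_A) (hV : S_VIT) (hUB : S_UB) (hk : 1 ≤ k)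
    (hub : ∃ C₀ : ℝ, ∀ T : ℝ, 2 ≤ T → ∫ t in (0:ℝ)..T, ‖zh t‖ ^ (2 * k) ≤ C₀ * (T * Real.log T ^ (k ^ 2)))
    (l : Filter ℝ) (hl : l.NeBot) (hle : l ≤ atTop) (p d : Sh k) {E : Set ℂ} (hE : E.Infinite)
    (hb : Bornology.IsBounded E) (h : ∀ u ∈ E, ∃ c : ℂ, Tendsto (fun T => MM k (p + u • d) T) l (𝓝 c)) :
    ∃ Φ : ℂ → ℂ, Differentiable ℂ Φ ∧ ∀ u, Tendsto (fun T => MM k (p + u • d) T) l (𝓝 (Φ u)) := by
  refine hV ℝ l hl (fun T u => MM k (p + u • d) T) (fun R hR => ?_) E hE hb h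
  obtain ⟨K, T₁, hK, h1⟩ := bdd_all hU hUB hk hub (‖p‖ + R * ‖d‖ + 1) (by positivity)
  obtain ⟨T₂, h2⟩ := hA k p d R hR
  refine ⟨K, ?_⟩
  filter_upwards [hle (eventually_ge_atTop T₁), hle (eventually_ge_atTop T₂)] with T hT1 hT2
  refine ⟨h2 T hT2, fun u hu => h1 T hT1 _ ?_⟩
  rw [mem_ball_zero_iff] at hu
  refine (norm_add_le _ _).trans ?_
  rw [norm_smul]
  have : ‖u‖ * ‖d‖ ≤ R * ‖d‖ := by gcongr
  linarith

/-- uniform Lipschitz bound -/
theorem lip (hU : S_U) (hA : S_A) (hUB : S_UB) (hk : 1 ≤ k)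
    (hub : ∃ C₀ : ℝ, ∀ T : ℝ, 2 ≤ T → ∫ t in (0:ℝ)..T, ‖zh t‖ ^ (2 * k) ≤ C₀ * (T * Real.log T ^ (k ^ 2)))
    (R : ℝ) (hR : 0 < R) : ∃ K : ℝ, 0 ≤ K ∧ ∀ p q : Sh k, ‖p‖ ≤ R → ‖q‖ ≤ R →
      ∀ᶠ T in atTop, ‖MM k p T - MM k q T‖ ≤ K * ‖p - q‖ := by
  obtain ⟨K, T₁, hK, h1⟩ := bdd_all hU hUB hk hub (3 * R + 3) (by positivity)
  refine ⟨K, hK, fun p q hp hq => ?_⟩
  rcases eq_or_ne p q with rfl | hpq
  · simp
  have hn : 0 < ‖q - p‖ := norm_pos_iff.2 (sub_ne_zero.2 hpq.symm)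
  have hn2 : ‖q - p‖ ≤ 2 * R := (norm_sub_le _ _).trans (by linarith)
  set d : Sh k := ((‖q - p‖⁻¹ : ℝ) : ℂ) • (q - p) with hd
  have hd1 : ‖d‖ = 1 := by
    rw [hd, norm_smul, Complex.norm_real, norm_inv, norm_norm, inv_mul_cancel₀ hn.ne']
  obtain ⟨T₂, h2⟩ := hA k p d (2 * R + 3) (by positivity)
  filter_upwards [eventually_ge_atTop T₁, eventually_ge_atTop T₂] with T hT1 hT2
  have hdf := h2 T hT2
  set g : ℂ → ℂ := fun u => MM k (p + u • d) T with hg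
  have hbd : ∀ u ∈ Metric.ball (0 : ℂ) (2 * R + 3), ‖g u‖ ≤ K := by
    intro u hu
    rw [mem_ball_zero_iff] at hu
    refine h1 T hT1 _ ((norm_add_le _ _).trans ?_)
    rw [norm_smul, hd1, mul_one]
    linarith
  have hder : ∀ u ∈ Metric.ball (0 : ℂ) (2 * R + 1), ‖deriv g u‖ ≤ K := by
    intro u hu
    rw [mem_ball_zero_iff] at hu
    have hsub : Metric.closedBall u 1 ⊆ Metric.ball (0 : ℂ) (2 * R + 3) := by
      intro v hv
      rw [mem_closedBall_iff_norm] at hv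
      rw [mem_ball_zero_iff]
      have := norm_add_le (v - u) u
      rw [sub_add_cancel] at this
      linarith
    have h3 : DiffContOnCl ℂ g (Metric.ball u 1) := by
      refine DifferentiableOn.diffContOnCl ?_
      rw [closure_ball u one_ne_zero]
      exact hdf.mono hsub
    have := Complex.norm_deriv_le_of_forall_mem_sphere_norm_le one_pos h3
      (fun z hz => hbd z (hsub (Metric.sphere_subset_closedBall hz)))
    simpa using this
  have hdd : ∀ u ∈ Metric.ball (0 : ℂ) (2 * R + 1), DifferentiableAt ℂ g u := by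
    intro u hu
    have : Metric.ball (0 : ℂ) (2 * R + 3) ∈ 𝓝 u := by
      refine Metric.isOpen_ball.mem_nhds (Metric.ball_subset_ball (by linarith) hu)
    exact hdf.differentiableAt this
  have h0 : (0 : ℂ) ∈ Metric.ball (0 : ℂ) (2 * R + 1) := by
    rw [mem_ball_zero_iff, norm_zero]
    positivity
  have h5 : ((‖q - p‖ : ℝ) : ℂ) ∈ Metric.ball (0 : ℂ) (2 * R + 1) := by
    rw [mem_ball_zero_iff, Complex.norm_real, norm_norm]
    linarith
  have h6 := (convex_ball (0 : ℂ) (2 * R + 1)).norm_image_sub_le_of_norm_deriv_le hdd hder h5 h0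
  have e1 : g ((‖q - p‖ : ℝ) : ℂ) = MM k q T := by
    rw [hg]
    simp only
    congr 1
    rw [hd, smul_smul, ← Complex.ofReal_mul, mul_inv_cancel₀ hn.ne', Complex.ofReal_one, one_smul]
    abel
  have e2 : g 0 = MM k p T := by
    rw [hg]
    simp only [zero_smul, add_zero]
  rw [e1, e2] at h6
  refine h6.trans (le_of_eq ?_)
  rw [zero_sub, norm_neg, Complex.norm_real, norm_norm, norm_sub_rev]

end Pool.Agent.J6H39.ZO
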