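import Mathlib
import Pool.Agent.HopfPinch.AnS1

/-! Project ZO: Osgood's lemma on `ℂ^n` (the induction step is that of `Pool.Agent.H788R3.Cor2.osgood2`). -/

set_option autoImplicit false

open MeasureTheory Metric Set Filter Topology Complex

namespace Pool.Agent.J6H39.ZO

theorem osg {E : Type} [NormedAddCommGroup E] [NormedSpace ℂ E] [FiniteDimensional ℂ E]
    {D : Set (ℂ × E)} (hD : IsOpen D) {u : ℂ × E → ℂ} {C : ℝ} (hb : ∀ p ∈ D, ‖u p‖ ≤ C)
    (h1 : ∀ y : E, DifferentiableOn ℂ (fun w => u (w, y)) {w : ℂ | (w, y) ∈ D})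
    (h2 : ∀ w : ℂ, DifferentiableOn ℂ (fun y : E => u (w, y)) {y | (w, y) ∈ D}) :
    DifferentiableOn ℂ u (D) := by
  rintro ⟨w0, y0⟩ hp0
  apply DifferentiableAt.differentiableWithinAt
  obtain ⟨ε, hε, hB⟩ := Metric.isOpen_iff.1 hD _ hp0
  set r := ε / 2 with hr
  have hr0 : 0 < r := by positivity
  have hsub : ∀ w ∈ closedBall w0 r, ∀ y ∈ ball y0 r, (w, y) ∈ D := by
    intro w hw y hy
    refine hB ?_
    rw [mem_ball, Prod.dist_eq]
    rw [mem_closedBall] at hw
    rw [mem_ball] at hy
    simp only [max_lt_iff]
    constructor <;> linarith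
  set O : Set (ℂ × E) := ball w0 (r / 2) ×ˢ ball y0 r with hO
  have hOo : IsOpen O := isOpen_ball.prod isOpen_ball
  have hcm : ∀ θ, circleMap w0 r θ ∈ closedBall w0 r := fun θ => circleMap_mem_closedBall _ hr0.le θ
  have hC0 : 0 ≤ C := (norm_nonneg _).trans (hb _ hp0)
  have hsep : ∀ θ, ∀ w ∈ ball w0 (r / 2), r / 2 ≤ ‖circleMap w0 r θ - w‖ := by
    intro θ w hw
    have h3 : ‖circleMap w0 r θ - w0‖ = r := by
      simp [circleMap_sub_center, abs_of_pos hr0]
    rw [mem_ball, dist_eq_norm] at hw
    have h4 := norm_sub_le (circleMap w0 r θ - w) (w0 - w)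
    rw [sub_sub_sub_cancel_right, h3] at h4
    rw [norm_sub_rev w0 w] at h4
    linarith
  have hrep : ∀ p ∈ O, u p = (2 * Real.pi * I : ℂ)⁻¹ • ∫ θ in Ioc (0 : ℝ) (2 * Real.pi),
      deriv (circleMap w0 r) θ * ((circleMap w0 r θ - p.1)⁻¹ * u (circleMap w0 r θ, p.2)) := by
    rintro ⟨w, y⟩ ⟨hw, hy⟩
    have hd : DifferentiableOn ℂ (fun w => u (w, y)) (closedBall w0 r) := by
      intro z hz
      have h3 : z ∈ {w : ℂ | (w, y) ∈ D} := hsub z hz y hy
      exact ((h1 y z h3).differentiableAt ((hD.preimage (by fun_prop : Continuous fun w : ℂ => (w, y))).mem_nhds h3)).differentiableWithinAt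
    have hdc : DiffContOnCl ℂ (fun w => u (w, y)) (ball w0 r) := by
      refine DifferentiableOn.diffContOnCl ?_
      rw [closure_ball _ hr0.ne']
      exact hd
    have h4 := hdc.two_pi_i_inv_smul_circleIntegral_sub_inv_smul
      (ball_subset_ball (by linarith : r / 2 ≤ r) hw)
    simp only at h4 ⊢
    rw [← h4, circleIntegral, intervalIntegral.integral_of_le (by positivity)]
    simp only [smul_eq_mul]
  have hint : DifferentiableOn ℂ (fun p : ℂ × E => ∫ θ in Ioc (0 : ℝ) (2 * Real.pi),
      deriv (circleMap w0 r) θ * ((circleMap w0 r θ - p.1)⁻¹ * u (circleMap w0 r θ, p.2))) O := by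
    refine HP.differentiableOn_integral (X := ℂ × E) (E := ℂ) _ _ O hOo ?_ ?_
      (fun _ => r * ((r / 2)⁻¹ * C)) ?_ ?_
    · rintro ⟨w, y⟩ ⟨hw, hy⟩
      apply Continuous.aestronglyMeasurable
      have hc1 : Continuous (fun θ => u (circleMap w0 r θ, y)) := by
        rw [continuous_iff_continuousAt]
        intro θ
        have h3 : circleMap w0 r θ ∈ {w : ℂ | (w, y) ∈ D} := hsub _ (hcm θ) y hy
        have h4 : ContinuousAt (fun w => u (w, y)) (circleMap w0 r θ) :=
          ((h1 y _ h3).differentiableAt ((hD.preimage (by fun_prop : Continuous fun w : ℂ => (w, y))).mem_nhds h3)).continuousAt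
        exact ContinuousAt.comp (f := fun θ => circleMap w0 r θ) (g := fun w => u (w, y)) h4
          (continuous_circleMap w0 r).continuousAt
      have hc2 : Continuous (fun θ => (circleMap w0 r θ - w)⁻¹) := by
        refine Continuous.inv₀ ((continuous_circleMap w0 r).sub continuous_const) (fun θ => ?_)
        have := hsep θ w hw
        exact norm_pos_iff.1 (by linarith)
      have hc3 : Continuous (fun θ => deriv (circleMap w0 r) θ) := by
        simp only [deriv_circleMap]
        exact (continuous_circleMap 0 r).mul continuous_const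
      exact hc3.mul (hc2.mul hc1)
    · intro θ
      have hd1 : DifferentiableOn ℂ (fun p : ℂ × E => u (circleMap w0 r θ, p.2)) O := by
        refine (h2 (circleMap w0 r θ)).comp differentiableOn_snd (fun p hp => ?_)
        exact hsub _ (hcm θ) _ hp.2
      have hd2 : DifferentiableOn ℂ (fun p : ℂ × E => (circleMap w0 r θ - p.1)⁻¹) O := by
        intro p hp
        refine (DifferentiableAt.fun_inv ((differentiableAt_const _).fun_sub differentiableAt_fst)
          ?_).differentiableWithinAt
        have := hsep θ p.1 hp.1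
        exact norm_pos_iff.1 (by linarith)
      exact (hd2.fun_mul hd1).const_mul _
    · exact integrableOn_const measure_Ioc_lt_top.ne enorm_ne_top
    · rintro θ ⟨w, y⟩ ⟨hw, hy⟩
      rw [norm_mul, norm_mul, norm_inv]
      have h3 : ‖deriv (circleMap w0 r) θ‖ = r := by
        simp [deriv_circleMap, abs_of_pos hr0]
      rw [h3]
      have h4 := hsep θ w hw
      have h5 := hb _ (hsub _ (hcm θ) y hy)
      gcongr
  have hfin : DifferentiableOn ℂ u O :=
    (hint.const_smul (2 * Real.pi * I : ℂ)⁻¹).congr (fun p hp => hrep p hp)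
  exact hfin.differentiableAt (hOo.mem_nhds ⟨mem_ball_self (by positivity), mem_ball_self hr0⟩)

/-- Osgood's lemma on `ℂ^n` -/
theorem os_fin : ∀ (n : ℕ) (G : (Fin n → ℂ) → ℂ), (∀ R : ℝ, ∃ C : ℝ, ∀ p, ‖p‖ ≤ R → ‖G p‖ ≤ C) →
    (∀ p d : Fin n → ℂ, Differentiable ℂ (fun u : ℂ => G (p + u • d))) → Differentiable ℂ G := by
  intro n
  induction n with
  | zero =>
    intro G _ _ p
    have : G = fun _ => G p := by
      funext q
      rw [Subsingleton.elim q p]
    rw [this]
    exact differentiableAt_const _
  | succ n ih =>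
    intro G hb hd
    have hcn : ∀ (w : ℂ) (y : Fin n → ℂ), ‖(Fin.cons w y : Fin (n + 1) → ℂ)‖ ≤ max ‖w‖ ‖y‖ := by
      intro w y
      refine (pi_norm_le_iff_of_nonneg (by positivity)).2 fun i => ?_
      refine Fin.cases ?_ (fun j => ?_) i
      · simp
      · simp only [Fin.cons_succ]
        exact (norm_le_pi_norm y j).trans (le_max_right _ _)
    set H : ℂ × (Fin n → ℂ) → ℂ := fun q => G (Fin.cons q.1 q.2) with hH
    have hHd : Differentiable ℂ H := by
      intro q
      obtain ⟨C, hC⟩ := hb (‖q‖ + 1)
      have h1 : DifferentiableOn ℂ H (ball q 1) := by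
        refine osg isOpen_ball (C := C) (fun p hp => ?_) (fun y => ?_) (fun w => ?_)
        · refine hC _ ((hcn _ _).trans ?_)
          have h2 : ‖p‖ ≤ ‖q‖ + 1 := by
            rw [mem_ball_iff_norm] at hp
            have := norm_add_le (p - q) q
            rw [sub_add_cancel] at this
            linarith
          exact h2
        · refine Differentiable.differentiableOn ?_
          have h2 := hd (Fin.cons 0 y) (Fin.cons 1 0)
          have h3 : (fun w => H (w, y)) = fun u : ℂ => G (Fin.cons 0 y + u • Fin.cons 1 0) := by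
            funext w
            rw [hH]
            simp only
            congr 1
            funext i
            refine Fin.cases ?_ (fun j => ?_) i <;> simp
          rw [h3]
          exact h2
        · refine Differentiable.differentiableOn ?_
          refine ih (fun y => H (w, y)) (fun R => ?_) (fun p d => ?_)
          · obtain ⟨C', hC'⟩ := hb (max ‖w‖ R)
            refine ⟨C', fun p hp => hC' _ ((hcn _ _).trans ?_)⟩
            exact max_le_max le_rfl hp
          · have h2 := hd (Fin.cons w p) (Fin.cons 0 d)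
            have h3 : (fun u : ℂ => H (w, p + u • d)) = fun u : ℂ => G (Fin.cons w p + u • Fin.cons 0 d) := by
              funext u
              rw [hH]
              simp only
              congr 1
              funext i
              refine Fin.cases ?_ (fun j => ?_) i <;> simp
            rw [h3]
            exact h2
      exact h1.differentiableAt (isOpen_ball.mem_nhds (mem_ball_self one_pos))
    have hG : G = fun p => H (p 0, fun j => p j.succ) := by
      funext p
      rw [hH]
      simp only
      congr 1
      funext i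
      refine Fin.cases ?_ (fun j => ?_) i <;> simp
    rw [hG]
    refine hHd.comp ?_
    fun_prop

end Pool.Agent.J6H39.ZO
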