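import Pool.Agent.J6H39.ZO.Stm

/-!
# Module ZO-4 (VIT): a Vitali theorem along filters
-/

set_option autoImplicit false

open MeasureTheory Set Filter Topology Complex

namespace Pool.Agent.J6H39.ZO.VIT

/-- Taylor coefficients at the origin. -/
noncomputable def co (f : ℂ → ℂ) (n : ℕ) : ℂ := ((n.factorial : ℂ))⁻¹ * iteratedDeriv n f 0

theorem co_bound {f : ℂ → ℂ} {ρ K : ℝ} (hρ : 0 < ρ) (hf : DifferentiableOn ℂ f (Metric.ball 0 (2 * ρ)))
    (hK : ∀ u ∈ Metric.ball (0 : ℂ) (2 * ρ), ‖f u‖ ≤ K) (n : ℕ) : ‖co f n‖ ≤ K / ρ ^ n := by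
  have hsub : Metric.closedBall (0 : ℂ) ρ ⊆ Metric.ball 0 (2 * ρ) :=
    Metric.closedBall_subset_ball (by linarith)
  have hd : DiffContOnCl ℂ f (Metric.ball 0 ρ) := by
    apply DifferentiableOn.diffContOnCl
    rw [closure_ball (0 : ℂ) hρ.ne']
    exact hf.mono hsub
  have h := Complex.norm_iteratedDeriv_le_of_forall_mem_sphere_norm_le n hρ hd
    (C := K) (fun z hz => hK z (hsub (Metric.sphere_subset_closedBall hz)))
  have hfac : (0 : ℝ) < n.factorial := by exact_mod_cast Nat.factorial_pos n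
  unfold co
  rw [norm_mul, norm_inv, Complex.norm_natCast]
  calc ((n.factorial : ℝ))⁻¹ * ‖iteratedDeriv n f 0‖
      ≤ ((n.factorial : ℝ))⁻¹ * (n.factorial * K / ρ ^ n) := by gcongr
    _ = K / ρ ^ n := by field_simp

theorem co_sum {f : ℂ → ℂ} {r : ℝ} (hf : DifferentiableOn ℂ f (Metric.ball 0 r)) {z : ℂ}
    (hz : z ∈ Metric.ball (0 : ℂ) r) : f z = ∑' n, co f n * z ^ n := by
  have h := Complex.hasSum_taylorSeries_on_ball hf hz
  rw [← h.tsum_eq]
  refine tsum_congr fun n => ?_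
  simp only [co, sub_zero, smul_eq_mul]
  ring

/-- Existence of the limit along an ultrafilter. -/
theorem exists_lim {ι : Type} (𝒰 : Ultrafilter ι) (F : ι → ℂ → ℂ)
    (hF : ∀ R : ℝ, 0 < R → ∃ K : ℝ, ∀ᶠ i in (𝒰 : Filter ι), DifferentiableOn ℂ (F i) (Metric.ball 0 R) ∧
      ∀ u ∈ Metric.ball (0 : ℂ) R, ‖F i u‖ ≤ K) :
    ∃ Φ : ℂ → ℂ, Differentiable ℂ Φ ∧ ∀ u, Tendsto (fun i => F i u) 𝒰 (𝓝 (Φ u)) := by
  have hb : ∀ ρ : ℝ, 0 < ρ → ∃ K : ℝ, 0 ≤ K ∧ ∀ᶠ i in (𝒰 : Filter ι), ∀ n, ‖co (F i) n‖ ≤ K / ρ ^ n := by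
    intro ρ hρ
    obtain ⟨K, hK⟩ := hF (2 * ρ) (by linarith)
    refine ⟨|K|, abs_nonneg K, ?_⟩
    filter_upwards [hK] with i hi n
    refine (co_bound hρ hi.1 hi.2 n).trans ?_
    gcongr
    exact le_abs_self K
  have hlim : ∀ n, ∃ γ : ℂ, Tendsto (fun i => co (F i) n) 𝒰 (𝓝 γ) := by
    intro n
    obtain ⟨K, -, hK⟩ := hb 1 one_pos
    have hc : IsCompact (Metric.closedBall (0 : ℂ) (K / 1 ^ n)) := isCompact_closedBall _ _
    obtain ⟨γ, -, hγ⟩ := hc.ultrafilter_le_nhds (𝒰.map (fun i => co (F i) n)) (by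
      rw [le_principal_iff, Ultrafilter.mem_coe, Ultrafilter.mem_map]
      filter_upwards [hK] with i hi
      simpa using hi n)
    exact ⟨γ, hγ⟩
  choose γ hγ using hlim
  have hγb : ∀ ρ : ℝ, 0 < ρ → ∃ K : ℝ, 0 ≤ K ∧ ∀ n, ‖γ n‖ ≤ K / ρ ^ n := by
    intro ρ hρ
    obtain ⟨K, hK0, hK⟩ := hb ρ hρ
    refine ⟨K, hK0, fun n => ?_⟩
    refine le_of_tendsto (hγ n).norm ?_
    filter_upwards [hK] with i hi
    exact hi n
  have hsummable : ∀ (K r : ℝ), 0 ≤ r → Summable (fun n : ℕ => K / (2 * (r + 1)) ^ n * r ^ n) := by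
    intro K r hr
    have h1 : (fun n : ℕ => K / (2 * (r + 1)) ^ n * r ^ n) = fun n : ℕ => K * (r / (2 * (r + 1))) ^ n := by
      funext n
      rw [div_pow]
      ring
    rw [h1]
    refine (summable_geometric_of_lt_one (by positivity) ?_).mul_left K
    rw [div_lt_one (by positivity)]
    linarith
  refine ⟨fun u => ∑' n, γ n * u ^ n, ?_, ?_⟩
  · intro u
    set r : ℝ := ‖u‖ + 1 with hr
    have hr0 : 0 ≤ r := by positivity
    obtain ⟨K, hK0, hK⟩ := hγb (2 * (r + 1)) (by positivity)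
    have hd : DifferentiableOn ℂ (fun w => ∑' n, γ n * w ^ n) (Metric.ball 0 r) := by
      refine Complex.differentiableOn_tsum_of_summable_norm (hsummable K r hr0) ?_ Metric.isOpen_ball ?_
      · intro n
        fun_prop
      · intro n w hw
        rw [norm_mul, norm_pow]
        have hw' : ‖w‖ ≤ r := by
          have := mem_ball_zero_iff.mp hw
          exact this.le
        have := hK n
        gcongr
    exact (hd u (by rw [mem_ball_zero_iff]; linarith)).differentiableAt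
      (Metric.isOpen_ball.mem_nhds (by rw [mem_ball_zero_iff]; linarith))
  · intro u
    set r : ℝ := ‖u‖ with hr
    have hr0 : 0 ≤ r := norm_nonneg u
    obtain ⟨K, hK0, hK⟩ := hb (2 * (r + 1)) (by positivity)
    obtain ⟨K', hK'⟩ := hF (r + 1) (by positivity)
    have ht : Tendsto (fun i => ∑' n, co (F i) n * u ^ n) 𝒰 (𝓝 (∑' n, γ n * u ^ n)) := by
      refine tendsto_tsum_of_dominated_convergence (hsummable K r hr0) ?_ ?_
      · intro n
        exact (hγ n).mul_const _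
      · filter_upwards [hK] with i hi n
        rw [norm_mul, norm_pow]
        have := hi n
        gcongr
    refine ht.congr' ?_
    filter_upwards [hK'] with i hi
    exact (co_sum hi.1 (by rw [mem_ball_zero_iff]; linarith)).symm

end Pool.Agent.J6H39.ZO.VIT

namespace Pool.Agent.J6H39.ZO

open VIT

/-- **ZO-V**: a Vitali theorem along filters. -/
theorem t_VIT : S_VIT := by
  intro ι l hl F hF E hE hEb hlim
  -- accumulation point
  obtain ⟨c, -, hc⟩ := hE.exists_accPt_of_subset_isCompact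
    (hEb.isCompact_closure) subset_closure
  have hfr : ∃ᶠ u in 𝓝[≠] c, u ∈ E := by
    rw [accPt_iff_frequently_nhdsNE] at hc
    exact hc
  have hU : ∀ 𝒱 : Ultrafilter ι, (𝒱 : Filter ι) ≤ l → ∃ Φ : ℂ → ℂ, Differentiable ℂ Φ ∧
      ∀ u, Tendsto (fun i => F i u) 𝒱 (𝓝 (Φ u)) := by
    intro 𝒱 h𝒱
    refine exists_lim 𝒱 F fun R hR => ?_
    obtain ⟨K, hK⟩ := hF R hR
    exact ⟨K, h𝒱 hK⟩
  have := hl
  obtain ⟨Φ, hΦd, hΦ⟩ := hU (Ultrafilter.of l) (Ultrafilter.of_le l)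
  refine ⟨Φ, hΦd, fun u => ?_⟩
  rw [tendsto_iff_ultrafilter]
  intro 𝒱 h𝒱
  obtain ⟨Ψ, hΨd, hΨ⟩ := hU 𝒱 h𝒱
  have heq : Ψ = Φ := by
    refine AnalyticOnNhd.eq_of_frequently_eq (z₀ := c) (𝕜 := ℂ)
      (fun z _ => hΨd.analyticAt z) (fun z _ => hΦd.analyticAt z) (hfr.mono ?_)
    intro z hz
    obtain ⟨a, ha⟩ := hlim z hz
    have h1 : Ψ z = a := tendsto_nhds_unique (hΨ z) (ha.mono_left h𝒱)
    have h2 : Φ z = a := tendsto_nhds_unique (hΦ z) (ha.mono_left (Ultrafilter.of_le l))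
    rw [h1, h2]
  rw [← heq]
  exact hΨ u

end Pool.Agent.J6H39.ZO
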