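import Pool.Agent.J6H39.ZO.Zr
import Pool.Agent.J6H39.ZO.Os
import Pool.Agent.J6H39.ZO.VIT

/-! Project ZO: Montel's theorem along ultrafilters on `ℂ^n`, and the alternatives for the shifted moments. -/

set_option autoImplicit false

open MeasureTheory Set Filter Topology Complex

namespace Pool.Agent.J6H39.ZO

open Pool.Agent.J6H39.CG

/-- limits along an ultrafilter -/
theorem ultra_lim {ι : Type} (𝒰 : Ultrafilter ι) (f : ι → ℂ) {K : ℝ} (h : ∀ᶠ i in (𝒰 : Filter ι), ‖f i‖ ≤ K) :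
    ∃ c, Tendsto f 𝒰 (𝓝 c) := by
  have h1 : (𝒰.map f : Filter ℂ) ≤ 𝓟 (Metric.closedBall 0 K) := by
    rw [le_principal_iff]
    change f ⁻¹' (Metric.closedBall 0 K) ∈ (𝒰 : Filter ι)
    filter_upwards [h] with i hi
    simpa using hi
  obtain ⟨c, -, hc⟩ := (isCompact_closedBall (0 : ℂ) K).ultrafilter_le_nhds _ h1
  exact ⟨c, hc⟩

/-- Montel's theorem along an ultrafilter -/
theorem montel {ι : Type} (𝒰 : Ultrafilter ι) {n : ℕ} (F : ι → (Fin n → ℂ) → ℂ)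
    (hb : ∀ R : ℝ, 0 < R → ∃ K : ℝ, ∀ᶠ i in (𝒰 : Filter ι), ∀ p, ‖p‖ ≤ R → ‖F i p‖ ≤ K)
    (hd : ∀ (p d : Fin n → ℂ) (R : ℝ), 0 < R →
      ∀ᶠ i in (𝒰 : Filter ι), DifferentiableOn ℂ (fun u : ℂ => F i (p + u • d)) (Metric.ball 0 R)) :
    ∃ Φ : (Fin n → ℂ) → ℂ, Differentiable ℂ Φ ∧ ∀ p, Tendsto (fun i => F i p) 𝒰 (𝓝 (Φ p)) := by
  have h1 : ∀ p, ∃ c, Tendsto (fun i => F i p) 𝒰 (𝓝 c) := by
    intro p
    obtain ⟨K, hK⟩ := hb (‖p‖ + 1) (by positivity)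
    exact ultra_lim 𝒰 (fun i => F i p) (K := K) (hK.mono fun i hi => hi p (by linarith))
  choose Φ hΦ using h1
  refine ⟨Φ, os_fin n Φ (fun R => ?_) (fun p d => ?_), hΦ⟩
  · obtain ⟨K, hK⟩ := hb (max R 1) (by positivity)
    refine ⟨K, fun p hp => le_of_tendsto (hΦ p).norm (hK.mono fun i hi => hi p (hp.trans (le_max_left _ _)))⟩
  · obtain ⟨Ψ, hΨ, hlim⟩ := t_VIT ι (𝒰 : Filter ι) inferInstance (fun i u => F i (p + u • d)) (fun R hR => by
      obtain ⟨K, hK⟩ := hb (‖p‖ + R * ‖d‖ + 1) (by positivity)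
      refine ⟨K, ?_⟩
      filter_upwards [hK, hd p d R hR] with i h2 h3
      refine ⟨h3, fun u hu => h2 _ ((norm_add_le _ _).trans ?_)⟩
      rw [mem_ball_zero_iff] at hu
      rw [norm_smul]
      have : ‖u‖ * ‖d‖ ≤ R * ‖d‖ := by gcongr
      linarith) ((fun u : ℝ => (u : ℂ)) '' Icc 1 2) (real_infinite (Set.Icc_infinite (by norm_num)))
      (real_bounded subset_rfl) (fun u _ => ⟨_, hΦ _⟩)
    have : (fun u : ℂ => Φ (p + u • d)) = Ψ := by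
      funext u
      exact tendsto_nhds_unique (hΦ _) (hlim u)
    rw [this]
    exact hΨ

variable {k : ℕ}

/-- the sharp upper bound for the moment -/
def UBk (k : ℕ) : Prop := ∃ C₀ : ℝ, ∀ T : ℝ, 2 ≤ T → ∫ t in (0:ℝ)..T, ‖zh t‖ ^ (2 * k) ≤ C₀ * (T * Real.log T ^ (k ^ 2))

/-- good sequence when the sharp upper bound fails -/
theorem bad_seq (hU : S_U) (hS : S_SEL) (hk : 1 ≤ k) (hne : ¬ UBk k) :
    ∃ (T r : ℕ → ℝ), Tendsto T atTop atTop ∧ Tendsto r atTop atTop ∧ (∀ n, 0 < r n) ∧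
      (∀ n, r n = (∫ t in (0:ℝ)..(T n), ‖zh t‖ ^ (2 * k)) / (T n * Real.log (T n) ^ (k ^ 2))) ∧
      ∀ R : ℝ, 0 < R → ∃ K : ℝ, ∀ᶠ n in atTop, ∀ p : Sh k, ‖p‖ ≤ R → ‖MM k p (T n)‖ ≤ K * r n := by
  obtain ⟨m₀, hU⟩ := hU k hk
  set B : ℕ := max (2 * k) (k ^ 2) with hB
  set m : ℕ := max m₀ (B + 3) with hm
  have hgr : ∃ C : ℝ, ∀ t, ‖zh t‖ ^ (2 * k) ≤ C * (1 + |t|) ^ B := by
    obtain ⟨C, hC⟩ := phi_growth k
    have hC0 : 0 ≤ C := by
      have := (show (0 : ℝ) ≤ ‖zh 0‖ ^ (2 * k) by positivity).trans (hC 0)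
      simpa using this
    refine ⟨C, fun t => (hC t).trans ?_⟩
    have h1 : (1 + |t|) ^ (2 * k) ≤ (1 + |t|) ^ B :=
      pow_le_pow_right₀ (by linarith [abs_nonneg t]) (le_max_left _ _)
    gcongr
  obtain ⟨K', hK', hsel⟩ := hS (fun t => ‖zh t‖ ^ (2 * k)) (phi_cont k) (fun t => by positivity)
    (fun t => by simp only [zh_conj]) (k ^ 2) B m ((le_max_right _ _).trans (Nat.le_succ _)) (le_max_right _ _) hgr
  have hsel := hsel hne
  choose T hT1 hT2 hT3 using fun n : ℕ => hsel (n + 3)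
  set Φ : ℝ → ℝ := fun T => ∫ t in (0:ℝ)..T, ‖zh t‖ ^ (2 * k) with hΦdef
  set Q : ℝ → ℝ := fun T => T * Real.log T ^ (k ^ 2) with hQdef
  have hT3' : ∀ n, 3 ≤ T n := fun n => le_trans (by linarith [(Nat.cast_nonneg n : (0 : ℝ) ≤ n)]) (hT1 n)
  have hQ : ∀ n, 0 < Q (T n) := fun n => qpos (by linarith [hT3' n]) _
  have hTQ : ∀ n, T n ≤ Q (T n) := fun n => le_q (hT3' n) _
  have hΦ1 : ∀ n : ℕ, ((n : ℝ) + 3) * Q (T n) ≤ Φ (T n) := fun n => hT2 n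
  have hΦ0 : ∀ n, 0 < Φ (T n) := fun n => lt_of_lt_of_le (mul_pos (by positivity) (hQ n)) (hΦ1 n)
  have hΦQ : ∀ n, Q (T n) ≤ Φ (T n) := fun n => by
    refine le_trans ?_ (hΦ1 n)
    have := hQ n
    nlinarith [(Nat.cast_nonneg n : (0 : ℝ) ≤ n)]
  set r : ℕ → ℝ := fun n => Φ (T n) / Q (T n) with hr
  have hr0 : ∀ n, 0 < r n := fun n => div_pos (hΦ0 n) (hQ n)
  have hrn : ∀ n : ℕ, (n : ℝ) + 3 ≤ r n := fun n => by
    rw [hr]
    simp only
    rw [le_div_iff₀ (hQ n)]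
    exact hΦ1 n
  have hTtop : Tendsto T atTop atTop := by
    refine tendsto_atTop_mono hT1 ?_
    exact tendsto_atTop_add_const_right _ _ tendsto_natCast_atTop_atTop
  have hrtop : Tendsto r atTop atTop := by
    refine tendsto_atTop_mono hrn ?_
    exact tendsto_atTop_add_const_right _ _ tendsto_natCast_atTop_atTop
  refine ⟨T, r, hTtop, hrtop, hr0, fun n => rfl, fun R hR => ?_⟩
  obtain ⟨K, T₁, hK, hbd⟩ := hU m (le_max_left _ _) R hR
  refine ⟨K * (K' + 1), ?_⟩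
  filter_upwards [hTtop.eventually_ge_atTop T₁] with n h1 p hp
  refine (hbd (T n) h1 p hp).trans ?_
  have h5 : NN k m (T n) ≤ K' * Φ (T n) := hT3 n
  have h6 : (NN k m (T n) + T n) / Q (T n) ≤ (K' + 1) * r n := by
    rw [hr]
    simp only
    rw [div_le_iff₀ (hQ n)]
    have h7 : (K' + 1) * (Φ (T n) / Q (T n)) * Q (T n) = (K' + 1) * Φ (T n) := by
      field_simp [(hQ n).ne']
    rw [h7]
    have := hTQ n
    have := hΦQ n
    linarith
  calc K * ((NN k m (T n) + T n) / (T n * Real.log (T n) ^ (k ^ 2))) ≤ K * ((K' + 1) * r n) :=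
        mul_le_mul_of_nonneg_left h6 hK
    _ = _ := by ring

theorem lin_bd {n : ℕ} (A : (Fin n → ℂ) →ₗ[ℂ] Sh k) : ∃ a : ℝ, 0 ≤ a ∧ ∀ z, ‖A z‖ ≤ a * ‖z‖ := by
  refine ⟨‖LinearMap.toContinuousLinearMap A‖, norm_nonneg _, fun z => ?_⟩
  exact (LinearMap.toContinuousLinearMap A).le_opNorm z

/-- **boundedness** -/
theorem alt_bdd (hU : S_U) (hA : S_A) (hC : S_C) (hS : S_SEL) (hk : 1 ≤ k) {n : ℕ} (A : (Fin n → ℂ) →ₗ[ℂ] Sh k) :
    UBk k ∨ ∃ G : (Fin n → ℂ) → ℂ, Differentiable ℂ G ∧ G 0 = 1 ∧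
      ∀ z, (∃ B T₀ : ℝ, ∀ T : ℝ, T₀ ≤ T → ‖MM k (A z) T‖ ≤ B) → G z = 0 := by
  by_cases hub : UBk k
  · exact Or.inl hub
  right
  obtain ⟨T, r, hT, hr, hr0, hrd, hbd⟩ := bad_seq hU hS hk hub
  obtain ⟨a, ha, hAa⟩ := lin_bd A
  set 𝒰 : Ultrafilter ℕ := Ultrafilter.of atTop with h𝒰
  have hle : (𝒰 : Filter ℕ) ≤ atTop := Ultrafilter.of_le _
  obtain ⟨G, hG, hlim⟩ := montel 𝒰 (fun i z => MM k (A z) (T i) / (r i : ℂ)) (fun R hR => by
    obtain ⟨K, hK⟩ := hbd (a * R + 1) (by positivity)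
    refine ⟨K, hle ?_⟩
    filter_upwards [hK] with i hi p hp
    rw [norm_div, Complex.norm_real, Real.norm_of_nonneg (hr0 i).le, div_le_iff₀ (hr0 i)]
    refine hi _ ((hAa p).trans ?_)
    have : a * ‖p‖ ≤ a * R := by gcongr
    linarith) (fun p d R hR => by
    obtain ⟨T₂, hdiff⟩ := hA k (A p) (A d) R hR
    refine hle ?_
    filter_upwards [hT.eventually_ge_atTop T₂] with i hi
    have := hdiff (T i) hi
    simp only [map_add, map_smul]
    exact this.div_const _)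
  refine ⟨G, hG, ?_, fun z hz => ?_⟩
  · have h1 : (fun i => MM k (A 0) (T i) / (r i : ℂ)) = fun _ => (1 : ℂ) := by
      funext i
      rw [map_zero, (hC k).2 (T i), ← hrd i, div_self]
      exact_mod_cast (hr0 i).ne'
    have h2 := hlim 0
    rw [h1] at h2
    exact tendsto_nhds_unique h2 tendsto_const_nhds
  · obtain ⟨B, T₀, hB⟩ := hz
    have h1 : Tendsto (fun i => MM k (A z) (T i) / (r i : ℂ)) atTop (𝓝 0) := by
      rw [tendsto_zero_iff_norm_tendsto_zero]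
      have h2 : Tendsto (fun n => max B 0 / r n) atTop (𝓝 0) := tendsto_const_nhds.div_atTop hr
      refine squeeze_zero' (Eventually.of_forall fun _ => norm_nonneg _) ?_ h2
      filter_upwards [hT.eventually_ge_atTop T₀] with i hi
      rw [norm_div, Complex.norm_real, Real.norm_of_nonneg (hr0 i).le]
      have h3 := hB (T i) hi
      have h4 := hr0 i
      gcongr
      exact h3.trans (le_max_left _ _)
    exact tendsto_nhds_unique (hlim z) (h1.mono_left hle)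

/-- **convergence** -/
theorem alt_conv (hU : S_U) (hA : S_A) (hC : S_C) (hS : S_SEL) (hUB : S_UB) (hk : 1 ≤ k) {n : ℕ}
    (A : (Fin n → ℂ) →ₗ[ℂ] Sh k) :
    (∃ Φ : (Fin n → ℂ) → ℂ, Differentiable ℂ Φ ∧ ∀ z, Tendsto (MM k (A z)) atTop (𝓝 (Φ z))) ∨
    ∃ G : (Fin n → ℂ) → ℂ, Differentiable ℂ G ∧ (∃ z, G z ≠ 0) ∧
      ∀ z, (∃ c, Tendsto (MM k (A z)) atTop (𝓝 c)) → G z = 0 := by
  rcases alt_bdd hU hA hC hS hk A with hub | ⟨G, hG, hG0, hz⟩
  swap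
  · right
    refine ⟨G, hG, ⟨0, by rw [hG0]; exact one_ne_zero⟩, fun z ⟨c, hc⟩ => hz z ?_⟩
    have h1 : ∀ᶠ T in atTop, ‖MM k (A z) T‖ ≤ ‖c‖ + 1 :=
      hc.norm.eventually (ge_mem_nhds (by linarith))
    obtain ⟨T₀, hT₀⟩ := eventually_atTop.1 h1
    exact ⟨‖c‖ + 1, T₀, hT₀⟩
  obtain ⟨a, ha, hAa⟩ := lin_bd A
  have key : ∀ 𝒰 : Ultrafilter ℝ, (𝒰 : Filter ℝ) ≤ atTop →
      ∃ Φ : (Fin n → ℂ) → ℂ, Differentiable ℂ Φ ∧ ∀ z, Tendsto (MM k (A z)) 𝒰 (𝓝 (Φ z)) := by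
    intro 𝒰 hle
    refine montel 𝒰 (fun T z => MM k (A z) T) (fun R hR => ?_) (fun p d R hR => ?_)
    · obtain ⟨K, T₀, hK, h1⟩ := bdd_all hU hUB hk hub (a * R + 1) (by positivity)
      refine ⟨K, hle ?_⟩
      filter_upwards [eventually_ge_atTop T₀] with T hT p hp
      refine h1 T hT _ ((hAa p).trans ?_)
      have : a * ‖p‖ ≤ a * R := by gcongr
      linarith
    · obtain ⟨T₂, hdiff⟩ := hA k (A p) (A d) R hR
      refine hle ?_
      filter_upwards [eventually_ge_atTop T₂] with T hT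
      have := hdiff T hT
      simp only [map_add, map_smul]
      exact this
  by_cases hall : ∀ z, ∃ c, Tendsto (MM k (A z)) atTop (𝓝 c)
  · left
    choose Φ hΦ using hall
    obtain ⟨Ψ, hΨ, hlim⟩ := key (Ultrafilter.of atTop) (Ultrafilter.of_le _)
    have : Φ = Ψ := by
      funext z
      exact tendsto_nhds_unique ((hΦ z).mono_left (Ultrafilter.of_le _)) (hlim z)
    exact ⟨Φ, this ▸ hΨ, hΦ⟩
  · right
    push Not at hall
    obtain ⟨z₀, hz₀⟩ := hall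
    obtain ⟨Ψ, hΨ, hlim⟩ := key (Ultrafilter.of atTop) (Ultrafilter.of_le _)
    have h1 : ¬ Tendsto (MM k (A z₀)) atTop (𝓝 (Ψ z₀)) := hz₀ _
    rw [tendsto_iff_ultrafilter] at h1
    push Not at h1
    obtain ⟨𝒱, h𝒱, hn⟩ := h1
    obtain ⟨Ψ', hΨ', hlim'⟩ := key 𝒱 h𝒱
    refine ⟨fun z => Ψ z - Ψ' z, hΨ.sub hΨ', ⟨z₀, fun h0 => hn ?_⟩, fun z ⟨c, hc⟩ => ?_⟩
    · have h2 := hlim' z₀
      rw [sub_eq_zero] at h0
      rw [← h0] at h2
      exact h2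
    · have h2 := tendsto_nhds_unique (hlim z) (hc.mono_left (Ultrafilter.of_le _))
      have h3 := tendsto_nhds_unique (hlim' z) (hc.mono_left h𝒱)
      simp only
      rw [h2, h3, sub_self]

/-- **real shifts** -/
theorem alt_real (hU : S_U) (hA : S_A) (hC : S_C) (hS : S_SEL) (hUB : S_UB) (hk : 1 ≤ k) {n : ℕ}
    (A : (Fin n → ℝ) →ₗ[ℝ] (Fin k → ℝ) × (Fin k → ℝ)) :
    (∀ x, ∃ c, Tendsto (MM k (rs k (A x))) atTop (𝓝 c)) ∨
    (volume {x : Fin n → ℝ | ∃ c, Tendsto (MM k (rs k (A x))) atTop (𝓝 c)} = 0 ∧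
      IsNowhereDense {x : Fin n → ℝ | ∃ c, Tendsto (MM k (rs k (A x))) atTop (𝓝 c)}) := by
  classical
  set Ac : (Fin n → ℂ) →ₗ[ℂ] Sh k :=
    LinearMap.prod
      (LinearMap.pi fun j => ∑ i, (I * ((A (Pi.single i 1)).1 j : ℂ)) • LinearMap.proj i)
      (LinearMap.pi fun j => ∑ i, (-(I * ((A (Pi.single i 1)).2 j : ℂ))) • LinearMap.proj i) with hAc
  have hexp : ∀ x : Fin n → ℝ, A x = ∑ i, x i • A (Pi.single i 1) := by
    intro x
    have h1 : x = ∑ i, x i • (Pi.single i (1 : ℝ) : Fin n → ℝ) := by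
      funext j
      simp [Finset.sum_apply, Pi.single_apply]
    conv_lhs => rw [h1]
    rw [map_sum]
    simp only [map_smul]
  have e1 : ∀ (z : Fin n → ℂ) (j : Fin k), (Ac z).1 j = ∑ i, (I * ((A (Pi.single i 1)).1 j : ℂ)) * z i := by
    intro z j
    change (∑ i, (I * ((A (Pi.single i 1)).1 j : ℂ)) • (LinearMap.proj i : (Fin n → ℂ) →ₗ[ℂ] ℂ)) z = _
    rw [LinearMap.sum_apply]
    rfl
  have e2 : ∀ (z : Fin n → ℂ) (j : Fin k), (Ac z).2 j = ∑ i, (-(I * ((A (Pi.single i 1)).2 j : ℂ))) * z i := by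
    intro z j
    change (∑ i, (-(I * ((A (Pi.single i 1)).2 j : ℂ))) • (LinearMap.proj i : (Fin n → ℂ) →ₗ[ℂ] ℂ)) z = _
    rw [LinearMap.sum_apply]
    rfl
  have f1 : ∀ (x : Fin n → ℝ) (j : Fin k), (A x).1 j = ∑ i, x i * (A (Pi.single i 1)).1 j := by
    intro x j
    rw [hexp x, Prod.fst_sum, Finset.sum_apply]
    rfl
  have f2 : ∀ (x : Fin n → ℝ) (j : Fin k), (A x).2 j = ∑ i, x i * (A (Pi.single i 1)).2 j := by
    intro x j
    rw [hexp x, Prod.snd_sum, Finset.sum_apply]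
    rfl
  have hAr : ∀ x : Fin n → ℝ, Ac (cx x) = rs k (A x) := by
    intro x
    refine Prod.ext ?_ ?_
    · funext j
      rw [e1]
      simp only [rs]
      rw [f1, Complex.ofReal_sum, Finset.mul_sum]
      refine Finset.sum_congr rfl fun i _ => ?_
      rw [Complex.ofReal_mul]
      simp only [cx]
      ring
    · funext j
      rw [e2]
      simp only [rs]
      rw [f2, Complex.ofReal_sum, Finset.mul_sum, ← Finset.sum_neg_distrib]
      refine Finset.sum_congr rfl fun i _ => ?_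
      rw [Complex.ofReal_mul]
      simp only [cx]
      ring
  rcases alt_conv hU hA hC hS hUB hk Ac with ⟨Φ, -, hΦ⟩ | ⟨G, hG, hne, hz⟩
  · left
    intro x
    refine ⟨Φ (cx x), ?_⟩
    rw [← hAr]
    exact hΦ _
  · right
    have hsub : {x : Fin n → ℝ | ∃ c, Tendsto (MM k (rs k (A x))) atTop (𝓝 c)} ⊆ {x | G (cx x) = 0} := by
      intro x hx
      refine hz _ ?_
      rw [hAr]
      exact hx
    exact ⟨measure_mono_null hsub (null_of_zero hG hne), (meagre_of_zero hG hne).mono hsub⟩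

/-- **lines** -/
theorem alt_line (hU : S_U) (hA : S_A) (hC : S_C) (hS : S_SEL) (hUB : S_UB) (hk : 1 ≤ k) (d : Sh k) {E : Set ℂ}
    (hE : E.Infinite) (hb : Bornology.IsBounded E) (h : ∀ u ∈ E, ∃ c, Tendsto (MM k (u • d)) atTop (𝓝 c)) :
    ∃ Φ : ℂ → ℂ, Differentiable ℂ Φ ∧ ∀ u : ℂ, Tendsto (MM k (u • d)) atTop (𝓝 (Φ u)) := by
  set A : (Fin 1 → ℂ) →ₗ[ℂ] Sh k := (LinearMap.toSpanSingleton ℂ (Sh k) d).comp (LinearMap.proj 0) with hAd
  have hAz : ∀ z : Fin 1 → ℂ, A z = z 0 • d := by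
    intro z
    simp [hAd]
  rcases alt_conv hU hA hC hS hUB hk A with ⟨Φ, hΦ, hlim⟩ | ⟨G, hG, ⟨z₀, hz₀⟩, hz⟩
  · refine ⟨fun u => Φ (fun _ => u), hΦ.comp (by fun_prop), fun u => ?_⟩
    have h1 := hlim (fun _ => u)
    rw [hAz] at h1
    exact h1
  · exfalso
    apply hz₀
    have h1 := zero_line hG 0 (fun _ => 1) hE hb (fun u hu => by
      refine hz _ ?_
      rw [hAz]
      simpa using h u hu) (z₀ 0)
    have h2 : (0 : Fin 1 → ℂ) + z₀ 0 • (fun _ => 1) = z₀ := by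
      funext j
      rw [Subsingleton.elim j 0]
      simp
    rw [h2] at h1
    exact h1

/-- **bounded on lines** -/
theorem bdd_line (hU : S_U) (hA : S_A) (hC : S_C) (hS : S_SEL) (hk : 1 ≤ k) (d : Sh k) {E : Set ℂ}
    (hE : E.Infinite) (hb : Bornology.IsBounded E)
    (h : ∀ u ∈ E, ∃ B T₀ : ℝ, ∀ T : ℝ, T₀ ≤ T → ‖MM k (u • d) T‖ ≤ B) : UBk k := by
  set A : (Fin 1 → ℂ) →ₗ[ℂ] Sh k := (LinearMap.toSpanSingleton ℂ (Sh k) d).comp (LinearMap.proj 0) with hAd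
  have hAz : ∀ z : Fin 1 → ℂ, A z = z 0 • d := by
    intro z
    simp [hAd]
  rcases alt_bdd hU hA hC hS hk A with hub | ⟨G, hG, hG0, hz⟩
  · exact hub
  · exfalso
    have h1 := zero_line hG 0 (fun _ => 1) hE hb (fun u hu => by
      refine hz _ ?_
      rw [hAz]
      simpa using h u hu) 0
    rw [zero_smul, add_zero, hG0] at h1
    exact one_ne_zero h1

end Pool.Agent.J6H39.ZO
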