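import Pool.Agent.J6H39.CG.Ker

/-!
# Project ZO (MP_80d0cf_nt): a zero-one law for shifts at the scale `1/log T`. Statements.

`MM k p T = (T (log T)^(k²))⁻¹ ∫_0^T ∏_j ζ(1/2+it+α_j/log T) ζ(1/2-it+β_j/log T) dt`, `p = (α, β)`.
`rs k (x, y)` are the shifts `α = i x`, `β = - i y`, so that the factors are `ζ(1/2+i(t+x_j/log T))` and
`ζ(1/2-i(t+y_j/log T))`.

Aim. (1) If `MM k (u • d) T` converges (`T → ∞`) for infinitely many `u` in a bounded set of complex numbers, then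
it converges for all `u ∈ ℂ`, in particular for `u = 0`: the `2k`-th moment conjecture. (2) If `MM k (rs k x) T`
converges for all `x` in a set of real shift vectors which is not null, then `MM k p T` converges for all complex
shift vectors `p`.

Every statement is a `Prop` with its proof in the docstring.
-/

set_option autoImplicit false

open MeasureTheory Set Filter Topology Complex

namespace Pool.Agent.J6H39.ZO

open Pool.Agent.J6H39.CG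

/-- complex shift vectors -/
abbrev Sh (k : ℕ) : Type := (Fin k → ℂ) × (Fin k → ℂ)

/-- the normalised shifted moment -/
noncomputable def MM (k : ℕ) (p : Sh k) (T : ℝ) : ℂ :=
  (∫ t in (0:ℝ)..T, ∏ j, (riemannZeta (1 / 2 + (t : ℂ) * I + p.1 j / (Real.log T : ℂ)) *
    riemannZeta (1 / 2 - (t : ℂ) * I + p.2 j / (Real.log T : ℂ)))) / ((T * Real.log T ^ (k ^ 2) : ℝ) : ℂ)

/-- real shifts -/
noncomputable def rs (k : ℕ) (x : (Fin k → ℝ) × (Fin k → ℝ)) : Sh k :=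
  (fun j => I * (x.1 j : ℂ), fun j => -(I * (x.2 j : ℂ)))

/-- **ZO-RB** (helper88, a by-product of his proof of `CG.S_RB`): the same bound as in `CG.S_RB` for `|x| ≤ R/log T`,
any `R`. -/
def S_RBR : Prop := ∀ k : ℕ, ∃ m₀ : ℕ, ∀ m : ℕ, m₀ ≤ m → ∀ R : ℝ, 0 < R → ∃ K T₀ : ℝ, 0 ≤ K ∧ ∀ T : ℝ, T₀ ≤ T →
  ∀ x : ℝ, |x| ≤ R / Real.log T →
    Integrable (fun t : ℝ => ‖riemannZeta (1 / 2 + (x : ℂ) + (t : ℂ) * I)‖ ^ (2 * k) * om m T t) ∧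
    ∫ t : ℝ, ‖riemannZeta (1 / 2 + (x : ℂ) + (t : ℂ) * I)‖ ^ (2 * k) * om m T t ≤ K * (NN k m T + T)

/-- **ZO-U** (from `S_RBR`): uniform bound. Proof. `|∏_j x_j y_j| ≤ ∑_j (|x_j|^(2k) + |y_j|^(2k))` (a product of `2k` numbers is at
most the maximum to the power `2k`; `k ≥ 1`). With `a = p.1 j`, `|ζ(1/2+it+a/L)| = |ζ(1/2 + Re a/L + i(t + Im a/L))|`, and with
`b = p.2 j`, `|ζ(1/2-it+b/L)| = |ζ(1/2 + Re b/L + i(t - Im b/L))|` (`riemannZeta_conj`). On `[0,T]` the weight `om m T t` is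
`≥ 2^(-m)`; translation by `δ = ± Im/L`, `|δ| ≤ 1`, costs `2^m` (`CG.om_shift`, `CG.shift_int`). Then `S_RBR`. -/
def S_U : Prop := ∀ k : ℕ, 1 ≤ k → ∃ m₀ : ℕ, ∀ m : ℕ, m₀ ≤ m → ∀ R : ℝ, 0 < R → ∃ K T₀ : ℝ, 0 ≤ K ∧ ∀ T : ℝ, T₀ ≤ T →
  ∀ p : Sh k, ‖p‖ ≤ R → ‖MM k p T‖ ≤ K * ((NN k m T + T) / (T * Real.log T ^ (k ^ 2)))

/-- **ZO-A**: analyticity on complex lines. Proof. For `|u| < R` the coordinates of `(p + u d)/log T` have modulus `≤ 1/4` for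
`T ≥ T₀`, so all arguments of zeta have real part in `[1/4, 3/4]` and zeta is differentiable there and bounded by
`16 (1 + |Im|)` (`CG.zeta_growth`). Apply `Pool.Agent.HP.differentiableOn_integral` (file `HopfPinch/AnS1.lean`, import it) on
`(0, T]` with the constant bound. -/
def S_A : Prop := ∀ (k : ℕ) (p d : Sh k) (R : ℝ), 0 < R → ∃ T₀ : ℝ, ∀ T : ℝ, T₀ ≤ T →
  DifferentiableOn ℂ (fun u : ℂ => MM k (p + u • d) T) (Metric.ball 0 R)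

/-- **ZO-C**: continuity in the real shifts, for every `T > 1` (all arguments of zeta have real part `1/2`; the integrand is
jointly continuous in `(x, t)`; `continuous_parametric_intervalIntegral_of_continuous` or `intervalIntegral.continuous...`), and
`MM k 0 T = ∫_0^T |ζ|^(2k) / (T (log T)^(k²))`. -/
def S_C : Prop := ∀ k : ℕ, (∀ T : ℝ, 1 < T → Continuous (fun x => MM k (rs k x) T)) ∧
  ∀ T : ℝ, MM k 0 T = (((∫ t in (0:ℝ)..T, ‖zh t‖ ^ (2 * k)) / (T * Real.log T ^ (k ^ 2)) : ℝ) : ℂ)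

/-- **ZO-V**: a Vitali theorem along filters. Proof. `E` has an accumulation point `c`
(`Set.Infinite.exists_accPt_of_subset_isCompact`). For an ultrafilter `𝒰 ≤ l` the Taylor coefficients of `F i` at `c` are bounded
(Cauchy, `≤ K ρ^(-j)` for every radius `ρ`, eventually), so they converge along `𝒰` to some `γ_j`, and
`F i u → Φ_𝒰(u) := ∑ γ_j (u-c)^j` along `𝒰` for every `u` (`tendsto_tsum_of_dominated_convergence` holds for all filters; take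
`ρ > |u - c|`), `Φ_𝒰` entire. For two ultrafilters `𝒰, 𝒱 ≤ l` the functions `Φ_𝒰, Φ_𝒱` agree on `E`, so everywhere
(identity theorem, `AnalyticOnNhd.eqOn_of_preconnected_of_frequently_eq`). Hence `F i u → Φ(u)` along `l`
(`tendsto_iff_ultrafilter`). -/
def S_VIT : Prop := ∀ (ι : Type) (l : Filter ι), l.NeBot → ∀ F : ι → ℂ → ℂ,
  (∀ R : ℝ, 0 < R → ∃ K : ℝ, ∀ᶠ i in l, DifferentiableOn ℂ (F i) (Metric.ball 0 R) ∧
    ∀ u ∈ Metric.ball (0 : ℂ) R, ‖F i u‖ ≤ K) →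
  ∀ E : Set ℂ, E.Infinite → Bornology.IsBounded E → (∀ u ∈ E, ∃ c : ℂ, Tendsto (fun i => F i u) l (𝓝 c)) →
  ∃ Φ : ℂ → ℂ, Differentiable ℂ Φ ∧ ∀ u, Tendsto (fun i => F i u) l (𝓝 (Φ u))

/-- **ZO-SEL**: good points for an unbounded ratio. `Φ(T) = ∫_0^T φ`, `Q(T) = T (log T)^p`, `N(T) = ∫ φ(t) om m T t dt`. Proof.
Dyadic decomposition: `N(T) ≤ 2Φ(T) + 2 ∑_{j≥0} 2^(-jm) Φ(2^(j+1)T)` (evenness; integrability from `φ = O((1+|t|)^B)`). If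
`Φ(2^j T) ≤ 2^((B+2)j) Φ(T)` for all `j` then `N(T) ≤ K' Φ(T)`, `K' = 2 + 2∑ 2^(-jm) 2^((B+2)(j+1))` (`m ≥ B+3`). Let
`h(T) = Φ(T)/T^(B+2)`, which tends to `0` (`Φ(T) = O(T^(B+1))`). If `Φ/Q` is unbounded on `[2,∞)`, there are `S ≥ Mb, 3` with
`Φ(S) ≥ Mb Q(S)`, `Φ(S) > 0` (`Φ/Q` is bounded on bounded sets). Let `j*` maximise `h(2^j S)`, `j ≥ 0`, and `T = 2^(j*) S`: then
`h(2^j T) ≤ h(T)` for all `j ≥ 0`, as wanted, and `Φ(T) ≥ Φ(S) (T/S)^(B+2) ≥ Mb Q(S) (T/S)^(B+2) ≥ Mb Q(T)` because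
`Q(T) = Q(S) (T/S) (log T/log S)^p ≤ Q(S) (T/S) (j*+1)^p ≤ Q(S) (T/S)^(1+p)` (`j+1 ≤ 2^j`) and `p ≤ B + 1`. (If `Mb ≤ 0` use `1`
instead.) -/
def S_SEL : Prop := ∀ (φ : ℝ → ℝ), Continuous φ → (∀ t, 0 ≤ φ t) → (∀ t, φ (-t) = φ t) → ∀ (p B m : ℕ), p ≤ B + 1 → B + 3 ≤ m →
  (∃ C : ℝ, ∀ t, φ t ≤ C * (1 + |t|) ^ B) →
  ∃ K' : ℝ, 0 < K' ∧
    ((¬ ∃ C₀ : ℝ, ∀ T : ℝ, 2 ≤ T → ∫ t in (0:ℝ)..T, φ t ≤ C₀ * (T * Real.log T ^ p)) →
    ∀ Mb : ℝ, ∃ T : ℝ, Mb ≤ T ∧ Mb * (T * Real.log T ^ p) ≤ ∫ t in (0:ℝ)..T, φ t ∧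
      ∫ t, φ t * om m T t ≤ K' * ∫ t in (0:ℝ)..T, φ t)

/-- **ZO-LN**: lines in sets of positive measure. Proof. By translation `q = 0`. For `u ∈ [1,2]`,
`μ {x | u x ∈ C} = u^(-n) μ C ≠ 0` (`Measure.addHaar_preimage_smul`), so `∫_{[1,2]} μ {x | u x ∈ C} du ≠ 0`; by Tonelli this is
`∫ |{u ∈ [1,2] | u x ∈ C}| dμ(x)`, so for some `x` the set `{u ∈ [1,2] | u x ∈ C}` has positive Lebesgue measure, in particular it is
infinite. Take `p = x` (in general `p = q + x`). -/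
def S_LN : Prop := ∀ (k : ℕ) (C : Set ((Fin k → ℝ) × (Fin k → ℝ))), MeasurableSet C → volume C ≠ 0 →
  ∀ q : (Fin k → ℝ) × (Fin k → ℝ), ∃ p : (Fin k → ℝ) × (Fin k → ℝ),
    {u : ℝ | u ∈ Icc (1:ℝ) 2 ∧ q + u • (p - q) ∈ C}.Infinite

end Pool.Agent.J6H39.ZO
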