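import Pool.Agent.J6H39.ZO.Main1

/-! Project ZO: real zeros of entire functions on `ℂ^n`. `line_of_pos` is helper61's proof of `S_LN` for `ℝ^n`. -/

set_option autoImplicit false

open MeasureTheory Set Filter Topology Complex

namespace Pool.Agent.J6H39.ZO

/-- lines in sets of positive measure -/
theorem line_of_pos {n : ℕ} {C : Set (Fin n → ℝ)} (hC : MeasurableSet C) (hpos : volume C ≠ 0) (q : Fin n → ℝ) :
    ∃ p : Fin n → ℝ, {u : ℝ | u ∈ Icc (1:ℝ) 2 ∧ q + u • p ∈ C}.Infinite := by
  by_contra hcon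
  push Not at hcon
  let S : Set (ℝ × (Fin n → ℝ)) := {z | z.1 ∈ Icc (1 : ℝ) 2 ∧ q + z.1 • z.2 ∈ C}
  have hcontS : Measurable fun z : ℝ × (Fin n → ℝ) => q + z.1 • z.2 := by
    have : Continuous fun z : ℝ × (Fin n → ℝ) => q + z.1 • z.2 := by fun_prop
    exact this.measurable
  have hS : MeasurableSet S :=
    (measurable_fst measurableSet_Icc).inter (hcontS hC)
  have hS' : MeasurableSet (Prod.swap ⁻¹' S : Set ((Fin n → ℝ) × ℝ)) := measurable_swap hS
  have h1 : (volume.prod volume : Measure ((Fin n → ℝ) × ℝ)) (Prod.swap ⁻¹' S) = 0 := by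
    rw [Measure.measure_prod_null hS']
    refine Eventually.of_forall fun x => ?_
    have h2 : {u : ℝ | u ∈ Icc (1:ℝ) 2 ∧ q + u • x ∈ C}.Finite := by
      exact hcon x
    exact h2.measure_zero _
  have h3 : (volume.prod volume : Measure (ℝ × (Fin n → ℝ))) S = 0 := by
    rw [← h1]
    exact ((Measure.measurePreserving_swap (μ := (volume : Measure (Fin n → ℝ)))
      (ν := (volume : Measure ℝ))).measure_preimage hS.nullMeasurableSet).symm
  rw [Measure.measure_prod_null hS] at h3
  have h4 : volume (Icc (1 : ℝ) 2) = 0 := by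
    refine measure_mono_null ?_ h3
    intro u hu hu0
    have h5 : volume (Prod.mk u ⁻¹' S) = 0 := hu0
    have hu1 : u ≠ 0 := by
      rintro rfl
      have := hu.1
      norm_num at this
    have h6 : (Prod.mk u ⁻¹' S : Set (Fin n → ℝ)) = (fun x => u • x) ⁻¹' ((fun x => q + x) ⁻¹' C) := by
      ext x
      simp only [S, mem_preimage, mem_ofPred_eq]
      exact ⟨fun h => h.2, fun h => ⟨hu, h⟩⟩
    rw [h6, Measure.addHaar_preimage_smul _ hu1, measure_preimage_add] at h5
    rw [mul_eq_zero] at h5
    rcases h5 with h5 | h5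
    · rw [ENNReal.ofReal_eq_zero] at h5
      have : 0 < |(u ^ Module.finrank ℝ (Fin n → ℝ))⁻¹| := by positivity
      linarith
    · exact hpos h5
  rw [Real.volume_Icc] at h4
  norm_num at h4

/-- a real vector as a complex vector -/
noncomputable def cx {n : ℕ} (x : Fin n → ℝ) : Fin n → ℂ := fun j => (x j : ℂ)

theorem cx_cont {n : ℕ} : Continuous (cx (n := n)) := by
  unfold cx
  fun_prop

/-- an entire function vanishing at infinitely many bounded points of a complex line vanishes on the line -/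
theorem zero_line {n : ℕ} {G : (Fin n → ℂ) → ℂ} (hG : Differentiable ℂ G) (p d : Fin n → ℂ) {E : Set ℂ}
    (hE : E.Infinite) (hb : Bornology.IsBounded E) (h : ∀ u ∈ E, G (p + u • d) = 0) (u : ℂ) : G (p + u • d) = 0 :=
  zero_of_infinite (Φ := fun u => G (p + u • d)) (hG.comp (by fun_prop)) hE hb h u

theorem real_infinite {S : Set ℝ} (hS : S.Infinite) : ((fun u : ℝ => (u : ℂ)) '' S).Infinite :=
  hS.image (Complex.ofReal_injective.injOn)

theorem real_bounded {S : Set ℝ} (hS : S ⊆ Icc (1 : ℝ) 2) : Bornology.IsBounded ((fun u : ℝ => (u : ℂ)) '' S) := by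
  have h : ((fun u : ℝ => (u : ℂ)) '' S) ⊆ Metric.closedBall 0 2 := by
    rintro _ ⟨u, hu, rfl⟩
    have h1 := hS hu
    simp only [mem_closedBall_zero_iff, Complex.norm_real, Real.norm_eq_abs]
    rw [abs_of_nonneg (by linarith [h1.1])]
    exact h1.2
  exact Metric.isBounded_closedBall.subset h

/-- zero-one law for real zeros -/
theorem null_of_zero {n : ℕ} {G : (Fin n → ℂ) → ℂ} (hG : Differentiable ℂ G) (hne : ∃ z, G z ≠ 0) :
    volume {x : Fin n → ℝ | G (cx x) = 0} = 0 := by
  by_contra hpos
  have hcl : IsClosed {x : Fin n → ℝ | G (cx x) = 0} :=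
    isClosed_eq (hG.continuous.comp cx_cont) continuous_const
  have hreal : ∀ q : Fin n → ℝ, G (cx q) = 0 := by
    intro q
    obtain ⟨p, hp⟩ := line_of_pos hcl.measurableSet hpos q
    have h1 := zero_line hG (cx q) (cx p) (real_infinite hp) (real_bounded (fun u hu => hu.1)) (by
      rintro _ ⟨u, hu, rfl⟩
      have h2 : G (cx (q + u • p)) = 0 := hu.2
      have h3 : cx (q + u • p) = cx q + (u : ℂ) • cx p := by
        funext j
        simp [cx]
      rw [← h3]
      exact h2) 0
    simpa using h1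
  obtain ⟨z, hz⟩ := hne
  apply hz
  set x : Fin n → ℝ := fun j => (z j).re with hx
  set y : Fin n → ℝ := fun j => (z j).im with hy
  have h1 := zero_line hG (cx x) (cx y) (real_infinite (S := Icc (1:ℝ) 2) (Set.Icc_infinite (by norm_num)))
    (real_bounded subset_rfl) (by
      rintro _ ⟨u, hu, rfl⟩
      have h3 : cx (x + u • y) = cx x + (u : ℂ) • cx y := by
        funext j
        simp [cx]
      rw [← h3]
      exact hreal _) I
  have h2 : z = cx x + I • cx y := by
    funext j
    simp only [cx, Pi.add_apply, Pi.smul_apply, smul_eq_mul, hx, hy]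
    rw [mul_comm, Complex.re_add_im]
  rw [h2]
  exact h1

/-- the real zeros are nowhere dense -/
theorem meagre_of_zero {n : ℕ} {G : (Fin n → ℂ) → ℂ} (hG : Differentiable ℂ G) (hne : ∃ z, G z ≠ 0) :
    IsNowhereDense {x : Fin n → ℝ | G (cx x) = 0} := by
  have hcl : IsClosed {x : Fin n → ℝ | G (cx x) = 0} :=
    isClosed_eq (hG.continuous.comp cx_cont) continuous_const
  rw [hcl.isNowhereDense_iff]
  by_contra h
  have h1 : (interior {x : Fin n → ℝ | G (cx x) = 0}).Nonempty := nonempty_iff_ne_empty.2 h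
  have h2 := isOpen_interior.measure_pos (volume : Measure (Fin n → ℝ)) h1
  have h3 := measure_mono_null interior_subset (null_of_zero hG hne)
  exact h2.ne' h3

end Pool.Agent.J6H39.ZO
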